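import Pool.Agent.R279.PJ.Lin

namespace Pool.Agent.R279.PJ

open Matrix
open scoped ComplexOrder Kronecker

section
variable {α β γ : Type} [Fintype α] [DecidableEq α] [Fintype β] [DecidableEq β] [Fintype γ]
  [DecidableEq γ]

/-- the `2 × 2` block matrix with blocks `X_{4i+2j} + w X_{4i+2j+1}` -/
def blk (w : ℂ) (X : Fin 8 → Matrix α α ℂ) : Matrix (α ⊕ α) (α ⊕ α) ℂ :=
  fromBlocks (X 0 + w • X 1) (X 2 + w • X 3) (X 4 + w • X 5) (X 6 + w • X 7)

/-- `V ⊕ V` -/
def dbl (V : Matrix α β ℂ) : Matrix (α ⊕ α) (β ⊕ β) ℂ := fromBlocks V 0 0 V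

omit [Fintype α] [DecidableEq α] [Fintype β] [DecidableEq β] in
theorem dbl_conj (V : Matrix α β ℂ) : (dbl V)ᴴ = dbl Vᴴ := by
  simp [dbl, fromBlocks_conjTranspose]

omit [Fintype α] [DecidableEq α] [DecidableEq β] [Fintype γ] [DecidableEq γ] in
theorem dbl_mul (V : Matrix α β ℂ) (W : Matrix β γ ℂ) : dbl V * dbl W = dbl (V * W) := by
  simp [dbl, fromBlocks_multiply]

omit [Fintype α] in
theorem dbl_one : dbl (1 : Matrix α α ℂ) = 1 := by simp [dbl]

omit [Fintype α] [DecidableEq α] [Fintype β] [DecidableEq β] in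
theorem dbl_zero : dbl (0 : Matrix α β ℂ) = 0 := by simp [dbl]

omit [Fintype α] [DecidableEq α] [Fintype β] [DecidableEq β] in
theorem dbl_add (V W : Matrix α β ℂ) : dbl (V + W) = dbl V + dbl W := by
  simp [dbl, fromBlocks_add]

omit [Fintype α] [DecidableEq α] [Fintype β] [DecidableEq β] in
theorem dbl_smul (c : ℂ) (V : Matrix α β ℂ) : dbl (c • V) = c • dbl V := by
  simp [dbl, fromBlocks_smul]

omit [Fintype α] [DecidableEq α] [Fintype β] [DecidableEq β] in
theorem dbl_sum {ι : Type} [Fintype ι] (V : ι → Matrix α β ℂ) :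
    dbl (∑ i, V i) = ∑ i, dbl (V i) := by
  classical
  induction (Finset.univ : Finset ι) using Finset.induction_on with
  | empty => simp [dbl_zero]
  | insert a s ha ih => rw [Finset.sum_insert ha, Finset.sum_insert ha, dbl_add, ih]

omit [Fintype α] [DecidableEq α] in
theorem blk_add (w : ℂ) (X Y : Fin 8 → Matrix α α ℂ) : blk w (X + Y) = blk w X + blk w Y := by
  simp only [blk, fromBlocks_add, Pi.add_apply, smul_add]
  congr 1 <;> abel

omit [Fintype α] [DecidableEq α] in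
theorem blk_smul (w : ℂ) (c : ℂ) (X : Fin 8 → Matrix α α ℂ) : blk w (c • X) = c • blk w X := by
  simp only [blk, fromBlocks_smul, Pi.smul_apply, smul_add]
  congr 1 <;> rw [smul_comm w c]

omit [Fintype α] [DecidableEq α] in
theorem blk_zero (w : ℂ) : blk w (0 : Fin 8 → Matrix α α ℂ) = 0 := by
  simp [blk]

omit [Fintype α] [DecidableEq α] in
theorem blk_sum (w : ℂ) {ι : Type} [Fintype ι] (X : ι → Fin 8 → Matrix α α ℂ) :
    blk w (∑ i, X i) = ∑ i, blk w (X i) := by
  classical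
  induction (Finset.univ : Finset ι) using Finset.induction_on with
  | empty => simp [blk_zero]
  | insert a s ha ih => rw [Finset.sum_insert ha, Finset.sum_insert ha, blk_add, ih]

/-- compression of a tuple -/
def comp {g : ℕ} (V : Matrix α β ℂ) (X : Fin g → Matrix α α ℂ) : Fin g → Matrix β β ℂ :=
  fun j => Vᴴ * X j * V

omit [DecidableEq α] [Fintype β] [DecidableEq β] in
theorem blk_comp (w : ℂ) (V : Matrix α β ℂ) (X : Fin 8 → Matrix α α ℂ) :
    blk w (comp V X) = (dbl V)ᴴ * blk w X * dbl V := by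
  rw [dbl_conj]
  simp [blk, dbl, comp, fromBlocks_multiply, Matrix.mul_add, Matrix.add_mul]

/-- the weighted ball -/
def Wt (w : ℂ) (P : Matrix α α ℂ) (X : Fin 8 → Matrix α α ℂ) : Prop :=
  (fromBlocks (dbl P) (blk w X) (blk w X)ᴴ (dbl P)).PosSemidef

omit [DecidableEq α] [DecidableEq β] in
theorem Wt.comp {w : ℂ} {P : Matrix α α ℂ} {X : Fin 8 → Matrix α α ℂ} (h : Wt w P X)
    (V : Matrix α β ℂ) : Wt w (Vᴴ * P * V) (comp V X) := by
  unfold Wt at h ⊢
  have h2 := h.conjTranspose_mul_mul_same (fromBlocks (dbl V) 0 0 (dbl V))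
  convert h2 using 1
  rw [fromBlocks_conjTranspose, fromBlocks_multiply, fromBlocks_multiply, blk_comp,
    ← dbl_mul, ← dbl_mul, dbl_conj]
  simp [dbl_conj, Matrix.mul_assoc]

omit [Fintype α] [DecidableEq α] in
theorem Wt.add {w : ℂ} {P Q : Matrix α α ℂ} {X Y : Fin 8 → Matrix α α ℂ} (h : Wt w P X)
    (h' : Wt w Q Y) : Wt w (P + Q) (X + Y) := by
  unfold Wt at *
  convert h.add h' using 1
  rw [fromBlocks_add, dbl_add, blk_add, conjTranspose_add]

omit [Fintype α] [DecidableEq α] in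
theorem Wt.zero {w : ℂ} : Wt w (0 : Matrix α α ℂ) 0 := by
  unfold Wt
  rw [blk_zero, dbl_zero, conjTranspose_zero, fromBlocks_zero]
  exact PosSemidef.zero

omit [Fintype α] [DecidableEq α] in
theorem Wt.sum {w : ℂ} {ι : Type} [Fintype ι] {P : ι → Matrix α α ℂ}
    {X : ι → Fin 8 → Matrix α α ℂ} (h : ∀ i, Wt w (P i) (X i)) : Wt w (∑ i, P i) (∑ i, X i) := by
  classical
  induction (Finset.univ : Finset ι) using Finset.induction_on with
  | empty => simpa using Wt.zero
  | insert a s ha ih => rw [Finset.sum_insert ha, Finset.sum_insert ha]; exact (h a).add ih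

omit [Fintype α] [DecidableEq α] in
theorem dbl_psd {P : Matrix α α ℂ} (h : (dbl P).PosSemidef) : P.PosSemidef := by
  have := h.submatrix (Sum.inl : α → α ⊕ α)
  convert this using 1
  ext a b
  simp [dbl]

omit [Fintype α] [DecidableEq α] in
theorem Wt.psd {w : ℂ} {P : Matrix α α ℂ} {X : Fin 8 → Matrix α α ℂ} (h : Wt w P X) :
    P.PosSemidef := by
  apply dbl_psd
  have := PosSemidef.submatrix h (Sum.inl : α ⊕ α → (α ⊕ α) ⊕ (α ⊕ α))
  convert this using 1
  ext a b
  simp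

theorem psd_dbl {P : Matrix α α ℂ} (h : P.PosSemidef) : (dbl P).PosSemidef := by
  have h1 := h.conjTranspose_mul_mul_same (fromCols (1 : Matrix α α ℂ) (0 : Matrix α α ℂ))
  have h2 := h.conjTranspose_mul_mul_same (fromCols (0 : Matrix α α ℂ) (1 : Matrix α α ℂ))
  convert h1.add h2 using 1
  ext (a | a) (b | b) <;>
  simp [dbl, conjTranspose_fromCols_eq_fromRows_conjTranspose, Matrix.mul_fromCols, fromRows_mul]

/-- The free set of all tuples of self-adjoint matrices with `‖blk w X‖ ≤ 1`. -/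
def KK (w : ℂ) : FreeSet 8 := fun _ => {X | (∀ j, (X j).IsHermitian) ∧ Wt w 1 X}

/-- The matrix convex hull of `KK I` and `KK (-I)`. -/
def LL : FreeSet 8 := fun n => {X | ∃ (P : Matrix (Fin n) (Fin n) ℂ) (X' X'' : Tup 8 n),
  (∀ j, (X' j).IsHermitian) ∧ (∀ j, (X'' j).IsHermitian) ∧ Wt Complex.I P X' ∧
  Wt (-Complex.I) (1 - P) X'' ∧ X = X' + X''}

theorem KK_I_sub {n : ℕ} : KK Complex.I n ⊆ LL n := by
  rintro X ⟨hX, hW⟩
  refine ⟨1, X, 0, hX, fun j => isHermitian_zero, hW, ?_, by simp⟩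
  rw [sub_self]
  exact Wt.zero

theorem KK_negI_sub {n : ℕ} : KK (-Complex.I) n ⊆ LL n := by
  rintro X ⟨hX, hW⟩
  refine ⟨0, 0, X, fun j => isHermitian_zero, hX, Wt.zero, ?_, by simp⟩
  rw [sub_zero]
  exact hW

omit [DecidableEq α] [DecidableEq β] [Fintype β] in
theorem comp_herm {g : ℕ} {X : Fin g → Matrix α α ℂ} (h : ∀ j, (X j).IsHermitian) (V : Matrix α β ℂ) :
    ∀ j, (comp V X j).IsHermitian := fun j => isHermitian_conjTranspose_mul_mul V (h j)

omit [Fintype α] [DecidableEq α] in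
theorem herm_sum {ι : Type} [Fintype ι] {X : ι → Fin 8 → Matrix α α ℂ}
    (h : ∀ i j, (X i j).IsHermitian) : ∀ j, ((∑ i, X i) j).IsHermitian := by
  intro j
  unfold Matrix.IsHermitian
  rw [Finset.sum_apply, conjTranspose_sum]
  exact Finset.sum_congr rfl fun i _ => h i j

theorem KK_convex (w : ℂ) : MatrixConvex (KK w) := by
  rintro n hn X ⟨k, m, Y, V, hY, hm, hV, hX⟩
  have hX2 : X = ∑ i, comp (V i) (Y i) := by
    funext j
    rw [hX j, Finset.sum_apply]
    rfl
  subst hX2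
  refine ⟨herm_sum fun i => comp_herm (hY i).1 (V i), ?_⟩
  have := Wt.sum fun i => (hY i).2.comp (V i)
  simp only [Matrix.mul_one, hV] at this
  exact this

theorem LL_convex : MatrixConvex LL := by
  rintro n hn X ⟨k, m, Y, V, hY, hm, hV, hX⟩
  choose P Y' Y'' h' h'' hW' hW'' hadd using hY
  have hX2 : X = ∑ i, comp (V i) (Y i) := by
    funext j
    rw [hX j, Finset.sum_apply]
    rfl
  refine ⟨∑ i, (V i)ᴴ * P i * V i, ∑ i, comp (V i) (Y' i), ∑ i, comp (V i) (Y'' i),
    herm_sum fun i => comp_herm (h' i) (V i), herm_sum fun i => comp_herm (h'' i) (V i),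
    Wt.sum fun i => (hW' i).comp (V i), ?_, ?_⟩
  · have := Wt.sum fun i => (hW'' i).comp (V i)
    convert this using 1
    simp only [Matrix.mul_sub, Matrix.sub_mul, Matrix.mul_one]
    rw [Finset.sum_sub_distrib, hV]
  · rw [hX2, ← Finset.sum_add_distrib]
    refine Finset.sum_congr rfl fun i _ => ?_
    funext j
    simp [comp, hadd i, Matrix.mul_add, Matrix.add_mul]

end

end Pool.Agent.R279.PJ
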