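import Mathlib

namespace Pool.Agent.R279.PJ

open Matrix
open scoped ComplexOrder Kronecker

/-- A `g`-tuple of complex `n × n` matrices. -/
abbrev Tup (g n : ℕ) := Fin g → Matrix (Fin n) (Fin n) ℂ

/-- A free set: a set of `g`-tuples of `n × n` matrices for every size `n` (only the sizes `n ≥ 1`
matter; this is always made explicit below). -/
abbrev FreeSet (g : ℕ) := ∀ n : ℕ, Set (Tup g n)

/-- All members of `K` are tuples of self-adjoint matrices. -/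
def SelfAdj {g : ℕ} (K : FreeSet g) : Prop := ∀ n : ℕ, ∀ X ∈ K n, ∀ j, (X j).IsHermitian

/-- `X = ∑ i, V i ^* * Y i * V i` is a matrix convex combination: `V i` is `m i × n`, the sizes `m i`
are positive and `∑ i, V i ^* * V i = 1`. -/
def IsComb {g n k : ℕ} (m : Fin k → ℕ) (Y : ∀ i, Tup g (m i))
    (V : ∀ i, Matrix (Fin (m i)) (Fin n) ℂ) (X : Tup g n) : Prop :=
  (∀ i, 0 < m i) ∧ ∑ i, (V i)ᴴ * V i = 1 ∧ ∀ j, X j = ∑ i, (V i)ᴴ * Y i j * V i

/-- The matrix convex hull: all matrix convex combinations of members of `S`. -/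
def mconv {g : ℕ} (S : FreeSet g) : FreeSet g := fun n =>
  {X | ∃ (k : ℕ) (m : Fin k → ℕ) (Y : ∀ i, Tup g (m i)) (V : ∀ i, Matrix (Fin (m i)) (Fin n) ℂ),
    (∀ i, Y i ∈ S (m i)) ∧ IsComb m Y V X}

/-- Matrix convex: closed under matrix convex combinations. -/
def MatrixConvex {g : ℕ} (K : FreeSet g) : Prop := ∀ n : ℕ, 0 < n → mconv K n ⊆ K n

/-- Closed and bounded: every level `K n` is. -/
def ClosedBounded {g : ℕ} (K : FreeSet g) : Prop :=
  ∀ n : ℕ, 0 < n → IsClosed (K n) ∧ ∃ C : ℝ, ∀ X ∈ K n, ∀ j a b, ‖X j a b‖ ≤ C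

/-- Unitary equivalence of tuples: `Y j = Q^* * X j * Q` for a unitary matrix `Q`. -/
def UnitarilyEquiv {g : ℕ} {α β : Type} [Fintype α] [DecidableEq α] [Fintype β] [DecidableEq β]
    (X : Fin g → Matrix α α ℂ) (Y : Fin g → Matrix β β ℂ) : Prop :=
  ∃ Q : Matrix α β ℂ, Q * Qᴴ = 1 ∧ Qᴴ * Q = 1 ∧ ∀ j, Y j = Qᴴ * X j * Q

/-- The direct sum `X ⊕ Z` of tuples. -/
def dsum {g n r : ℕ} (X : Tup g n) (Z : Tup g r) :
    Fin g → Matrix (Fin n ⊕ Fin r) (Fin n ⊕ Fin r) ℂ :=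
  fun j => fromBlocks (X j) 0 0 (Z j)

/-- `X ∈ K n` is a free extreme point of `K`: whenever `X = ∑ i, V i^* Y i V i` is a matrix convex
combination of members of `K` with all `V i ≠ 0`, then for every `i` either `m i = n` and `Y i` is
unitarily equivalent to `X`, or `m i > n` and `Y i` is unitarily equivalent to `X ⊕ Z` for some
`Z ∈ K`. -/
def FreeExtreme {g : ℕ} (K : FreeSet g) (n : ℕ) (X : Tup g n) : Prop :=
  X ∈ K n ∧ ∀ (k : ℕ) (m : Fin k → ℕ) (Y : ∀ i, Tup g (m i))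
    (V : ∀ i, Matrix (Fin (m i)) (Fin n) ℂ), (∀ i, Y i ∈ K (m i)) → IsComb m Y V X →
    (∀ i, V i ≠ 0) → ∀ i, (m i = n ∧ UnitarilyEquiv X (Y i)) ∨
      (n < m i ∧ ∃ (r : ℕ) (Z : Tup g r), 0 < r ∧ Z ∈ K r ∧ UnitarilyEquiv (dsum X Z) (Y i))

/-- The free set of all free extreme points. -/
def FE {g : ℕ} (K : FreeSet g) : FreeSet g := fun n => {X | FreeExtreme K n X}

/-- The projection of `K` to the first `h` coordinates. -/
def proj {g h : ℕ} (hgh : h ≤ g) (K : FreeSet g) : FreeSet h := fun n =>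
  {X | ∃ Y ∈ K n, ∀ j, X j = Y (Fin.castLE hgh j)}

/-- The free spectrahedron `D_A = ⋃ n, {X ∈ SM_n^g : I - ∑ A_j ⊗ X_j ⪰ 0}`. -/
def freeSpec {g d : ℕ} (A : Fin g → Matrix (Fin d) (Fin d) ℂ) : FreeSet g := fun n =>
  {X | (∀ j, (X j).IsHermitian) ∧ (1 - ∑ j, A j ⊗ₖ X j).PosSemidef}

end Pool.Agent.R279.PJ
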