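import Pool.Agent.R279.PJ.Fe2

namespace Pool.Agent.R279.PJ

open Matrix
open scoped ComplexOrder Kronecker

section
variable {α β γ : Type} [Fintype α] [DecidableEq α] [Fintype β] [DecidableEq β] [Fintype γ]
  [DecidableEq γ]

theorem spectral {Z : Matrix α α ℂ} (hZ : Z.IsHermitian) : ∃ (Q : Matrix α α ℂ) (lam : α → ℝ),
    Qᴴ * Q = 1 ∧ Q * Qᴴ = 1 ∧ Z = Q * diagonal (fun a => (lam a : ℂ)) * Qᴴ := by
  refine ⟨(hZ.eigenvectorUnitary : Matrix α α ℂ), hZ.eigenvalues,
    Unitary.coe_star_mul_self hZ.eigenvectorUnitary, Unitary.coe_mul_star_self hZ.eigenvectorUnitary,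
    ?_⟩
  have h := hZ.spectral_theorem
  rw [Unitary.conjStarAlgAut_apply] at h
  exact h

/-- a Hermitian contraction is the real part of a unitary matrix -/
theorem herm_unitary {Z : Matrix α α ℂ} (hZ : Z.IsHermitian) (h1 : (1 + Z).PosSemidef)
    (h2 : (1 - Z).PosSemidef) : ∃ W : Matrix α α ℂ, W * Wᴴ = 1 ∧ W + Wᴴ = (2 : ℂ) • Z := by
  obtain ⟨Q, lam, hQ, hQ', hZQ⟩ := spectral hZ
  have e1 : Qᴴ * Z * Q = diagonal (fun a => (lam a : ℂ)) := by
    rw [hZQ]
    calc Qᴴ * (Q * diagonal (fun a => (lam a : ℂ)) * Qᴴ) * Q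
        = (Qᴴ * Q) * diagonal (fun a => (lam a : ℂ)) * (Qᴴ * Q) := by simp only [Matrix.mul_assoc]
      _ = _ := by rw [hQ, Matrix.one_mul, Matrix.mul_one]
  have l1 : ∀ a, -1 ≤ lam a := by
    intro a
    have h := (h1.conjTranspose_mul_mul_same Q).diag_nonneg (i := a)
    rw [Matrix.mul_add, Matrix.add_mul, Matrix.mul_one, hQ, e1, Matrix.add_apply, one_apply_eq,
      diagonal_apply_eq] at h
    have : (0 : ℝ) ≤ 1 + lam a := by exact_mod_cast h
    linarith
  have l2 : ∀ a, lam a ≤ 1 := by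
    intro a
    have h := (h2.conjTranspose_mul_mul_same Q).diag_nonneg (i := a)
    rw [Matrix.mul_sub, Matrix.sub_mul, Matrix.mul_one, hQ, e1, Matrix.sub_apply, one_apply_eq,
      diagonal_apply_eq] at h
    have : (0 : ℝ) ≤ 1 - lam a := by exact_mod_cast h
    linarith
  set d : α → ℂ := fun a => (lam a : ℂ) + (√(1 - lam a ^ 2) : ℝ) * Complex.I with hd
  have hdd : ∀ a, d a * star (d a) = 1 := by
    intro a
    rw [hd]
    simp only [star_add, star_mul', Complex.star_def, Complex.conj_ofReal, Complex.conj_I]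
    have hs : (0 : ℝ) ≤ 1 - lam a ^ 2 := by nlinarith [l1 a, l2 a]
    have h3 : (√(1 - lam a ^ 2)) ^ 2 = 1 - lam a ^ 2 := Real.sq_sqrt hs
    have h4 : ((√(1 - lam a ^ 2) : ℝ) : ℂ) ^ 2 = 1 - (lam a : ℂ) ^ 2 := by exact_mod_cast h3
    linear_combination (-Complex.I ^ 2) * h4 + (-(1 - (lam a : ℂ) ^ 2)) * Complex.I_sq
  have hds : ∀ a, d a + star (d a) = 2 * (lam a : ℂ) := by
    intro a
    rw [hd]
    simp only [star_add, star_mul', Complex.star_def, Complex.conj_ofReal, Complex.conj_I]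
    ring
  have hWh : (Q * diagonal d * Qᴴ)ᴴ = Q * diagonal (fun a => star (d a)) * Qᴴ := by
    rw [conjTranspose_mul, conjTranspose_mul, conjTranspose_conjTranspose, diagonal_conjTranspose,
      ← Matrix.mul_assoc]
    rfl
  refine ⟨Q * diagonal d * Qᴴ, ?_, ?_⟩
  · rw [hWh]
    calc Q * diagonal d * Qᴴ * (Q * diagonal (fun a => star (d a)) * Qᴴ)
        = Q * diagonal d * (Qᴴ * Q) * diagonal (fun a => star (d a)) * Qᴴ := by
          simp only [Matrix.mul_assoc]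
      _ = Q * (diagonal d * diagonal (fun a => star (d a))) * Qᴴ := by
          rw [hQ, Matrix.mul_one, Matrix.mul_assoc Q]
      _ = 1 := by
          rw [diagonal_mul_diagonal]
          simp only [hdd]
          rw [diagonal_one, Matrix.mul_one, hQ']
  · rw [hWh, hZQ, ← Matrix.add_mul, ← Matrix.mul_add, diagonal_add]
    simp only [hds]
    rw [← Matrix.smul_mul, ← Matrix.mul_smul, ← diagonal_smul]
    congr 3

/-- real part -/
noncomputable def reM (m : Matrix α α ℂ) : Matrix α α ℂ := (2⁻¹ : ℂ) • (m + mᴴ)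

/-- imaginary part -/
noncomputable def imM (w : ℂ) (m : Matrix α α ℂ) : Matrix α α ℂ := (2 * w)⁻¹ • (m - mᴴ)

/-- the tuple with given block matrix -/
noncomputable def ofBlk (w : ℂ) (M : Matrix (α ⊕ α) (α ⊕ α) ℂ) : Fin 8 → Matrix α α ℂ :=
  ![reM M.toBlocks₁₁, imM w M.toBlocks₁₁, reM M.toBlocks₁₂, imM w M.toBlocks₁₂,
    reM M.toBlocks₂₁, imM w M.toBlocks₂₁, reM M.toBlocks₂₂, imM w M.toBlocks₂₂]

omit [Fintype α] [DecidableEq α] in
theorem reM_herm (m : Matrix α α ℂ) : (reM m).IsHermitian := by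
  unfold reM Matrix.IsHermitian
  rw [conjTranspose_smul, conjTranspose_add, conjTranspose_conjTranspose, add_comm]
  simp

omit [Fintype α] [DecidableEq α] in
theorem imM_herm {w : ℂ} (hw : IU w) (m : Matrix α α ℂ) : (imM w m).IsHermitian := by
  unfold imM Matrix.IsHermitian
  rw [conjTranspose_smul, conjTranspose_sub, conjTranspose_conjTranspose]
  have : star (2 * w)⁻¹ = -(2 * w)⁻¹ := by
    rw [star_inv₀, star_mul', hw.star]
    simp
  rw [this, neg_smul, ← smul_neg, neg_sub]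

omit [Fintype α] [DecidableEq α] in
theorem re_add_im {w : ℂ} (hw : IU w) (m : Matrix α α ℂ) : reM m + w • imM w m = m := by
  unfold reM imM
  rw [smul_smul]
  have : w * (2 * w)⁻¹ = 2⁻¹ := by
    have := hw.ne
    field_simp
  rw [this, ← smul_add]
  have : m + mᴴ + (m - mᴴ) = (2 : ℂ) • m := by
    rw [two_smul]
    abel
  rw [this, smul_smul]
  norm_num

omit [Fintype α] [DecidableEq α] in
theorem reM_of {w : ℂ} (hw : IU w) {A B : Matrix α α ℂ} (hA : A.IsHermitian) (hB : B.IsHermitian) :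
    reM (A + w • B) = A := by
  unfold reM
  rw [adj hw hA hB]
  have : A + w • B + (A - w • B) = (2 : ℂ) • A := by
    rw [two_smul]
    abel
  rw [this, smul_smul]
  norm_num

omit [Fintype α] [DecidableEq α] in
theorem imM_of {w : ℂ} (hw : IU w) {A B : Matrix α α ℂ} (hA : A.IsHermitian) (hB : B.IsHermitian) :
    imM w (A + w • B) = B := by
  unfold imM
  rw [adj hw hA hB]
  have : A + w • B - (A - w • B) = (2 * w) • B := by
    rw [mul_smul, two_smul]
    abel
  rw [this, smul_smul, inv_mul_cancel₀ (mul_ne_zero two_ne_zero hw.ne), one_smul]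

omit [Fintype α] [DecidableEq α] in
theorem ofBlk_herm {w : ℂ} (hw : IU w) (M : Matrix (α ⊕ α) (α ⊕ α) ℂ) (j : Fin 8) :
    (ofBlk w M j).IsHermitian := by
  fin_cases j
  exacts [reM_herm _, imM_herm hw _, reM_herm _, imM_herm hw _, reM_herm _, imM_herm hw _,
    reM_herm _, imM_herm hw _]

omit [Fintype α] [DecidableEq α] in
theorem blk_ofBlk {w : ℂ} (hw : IU w) (M : Matrix (α ⊕ α) (α ⊕ α) ℂ) : blk w (ofBlk w M) = M := by
  have h : blk w (ofBlk w M) = fromBlocks (reM M.toBlocks₁₁ + w • imM w M.toBlocks₁₁)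
      (reM M.toBlocks₁₂ + w • imM w M.toBlocks₁₂) (reM M.toBlocks₂₁ + w • imM w M.toBlocks₂₁)
      (reM M.toBlocks₂₂ + w • imM w M.toBlocks₂₂) := rfl
  rw [h, re_add_im hw, re_add_im hw, re_add_im hw, re_add_im hw, fromBlocks_toBlocks]

omit [Fintype α] [DecidableEq α] in
theorem ofBlk_blk {w : ℂ} (hw : IU w) {X : Fin 8 → Matrix α α ℂ} (hX : ∀ j, (X j).IsHermitian) :
    ofBlk w (blk w X) = X := by
  funext j
  fin_cases j
  exacts [reM_of hw (hX 0) (hX 1), imM_of hw (hX 0) (hX 1), reM_of hw (hX 2) (hX 3),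
    imM_of hw (hX 2) (hX 3), reM_of hw (hX 4) (hX 5), imM_of hw (hX 4) (hX 5),
    reM_of hw (hX 6) (hX 7), imM_of hw (hX 6) (hX 7)]

omit [Fintype α] [DecidableEq α] in
theorem blk_inj {w : ℂ} (hw : IU w) {X Y : Fin 8 → Matrix α α ℂ} (hX : ∀ j, (X j).IsHermitian)
    (hY : ∀ j, (Y j).IsHermitian) (h : blk w X = blk w Y) : X = Y := by
  rw [← ofBlk_blk hw hX, ← ofBlk_blk hw hY, h]

end

/-- every member of `KK w` is a matrix convex combination of unitary tuples -/
theorem KK_sub_mconv {w : ℂ} (hw : IU w) {n : ℕ} (hn : 0 < n) : KK w n ⊆ mconv (Un w) n := by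
  rintro X ⟨hX, hW⟩
  unfold Wt at hW
  rw [dbl_one] at hW
  set C := blk w X with hC
  set Z : Matrix ((Fin n ⊕ Fin n) ⊕ (Fin n ⊕ Fin n)) ((Fin n ⊕ Fin n) ⊕ (Fin n ⊕ Fin n)) ℂ :=
    fromBlocks 0 C Cᴴ 0 with hZ
  have hZh : Z.IsHermitian := by
    unfold Matrix.IsHermitian
    rw [hZ, fromBlocks_conjTranspose]
    simp
  have h1 : (1 + Z).PosSemidef := by
    rw [hZ, ← fromBlocks_one, fromBlocks_add]
    simpa using hW
  have h2 : (1 - Z).PosSemidef := by
    have := h1.conjTranspose_mul_mul_same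
      (fromBlocks 1 0 0 (-1) : Matrix ((Fin n ⊕ Fin n) ⊕ (Fin n ⊕ Fin n))
        ((Fin n ⊕ Fin n) ⊕ (Fin n ⊕ Fin n)) ℂ)
    convert this using 1
    rw [hZ, ← fromBlocks_one, fromBlocks_add, fromBlocks_conjTranspose, fromBlocks_multiply,
      fromBlocks_multiply, sub_eq_add_neg, fromBlocks_neg, fromBlocks_add]
    simp
  obtain ⟨W, hWW, hWs⟩ := herm_unitary hZh h1 h2
  have hWW' : Wᴴ * W = 1 := mul_eq_one_comm.mp hWW
  set Sw : Matrix ((Fin n ⊕ Fin n) ⊕ (Fin n ⊕ Fin n)) ((Fin n ⊕ Fin n) ⊕ (Fin n ⊕ Fin n)) ℂ :=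
    fromBlocks 0 1 1 0 with hSw
  have hSS : Sw * Swᴴ = 1 := by
    rw [hSw, fromBlocks_conjTranspose, fromBlocks_multiply]
    simp
  set e : (Fin n ⊕ Fin n) ⊕ (Fin n ⊕ Fin n) ≃ (Fin n ⊕ Fin n) ⊕ (Fin n ⊕ Fin n) :=
    Equiv.sumSumSumComm _ _ _ _ with he
  set M : Fin 2 → Matrix ((Fin n ⊕ Fin n) ⊕ (Fin n ⊕ Fin n)) ((Fin n ⊕ Fin n) ⊕ (Fin n ⊕ Fin n)) ℂ :=
    ![(W * Sw).submatrix e e, (Wᴴ * Sw).submatrix e e] with hM
  have hMM : ∀ i, M i * (M i)ᴴ = 1 := by
    intro i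
    fin_cases i
    · change (W * Sw).submatrix e e * ((W * Sw).submatrix e e)ᴴ = 1
      rw [conjTranspose_submatrix, submatrix_mul_equiv, conjTranspose_mul, Matrix.mul_assoc,
        ← Matrix.mul_assoc Sw, hSS, Matrix.one_mul, hWW, submatrix_one_equiv]
    · change (Wᴴ * Sw).submatrix e e * ((Wᴴ * Sw).submatrix e e)ᴴ = 1
      rw [conjTranspose_submatrix, submatrix_mul_equiv, conjTranspose_mul, Matrix.mul_assoc,
        ← Matrix.mul_assoc Sw, hSS, Matrix.one_mul, conjTranspose_conjTranspose, hWW',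
        submatrix_one_equiv]
  -- the embedding
  set V : Matrix (Fin n ⊕ Fin n) (Fin n) ℂ := fromRows 1 0 with hV
  have hVV : Vᴴ * V = 1 := by
    rw [hV, conjTranspose_fromRows_eq_fromCols_conjTranspose, fromCols_mul_fromRows]
    simp
  have hdV : dbl V = (fromRows 1 0 : Matrix ((Fin n ⊕ Fin n) ⊕ (Fin n ⊕ Fin n)) (Fin n ⊕ Fin n)
      ℂ).submatrix e id := by
    ext ((a | a) | (a | a)) (b | b) <;> simp [dbl, hV, he, one_apply]
  have hcomp : ∀ N : Matrix ((Fin n ⊕ Fin n) ⊕ (Fin n ⊕ Fin n)) ((Fin n ⊕ Fin n) ⊕ (Fin n ⊕ Fin n)) ℂ,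
      (dbl V)ᴴ * N.submatrix e e * dbl V = N.toBlocks₁₁ := by
    intro N
    rw [hdV, conjTranspose_submatrix, submatrix_mul_equiv, submatrix_mul_equiv,
      conjTranspose_fromRows_eq_fromCols_conjTranspose]
    conv_lhs => rw [← fromBlocks_toBlocks N]
    rw [fromCols_mul_fromBlocks, fromCols_mul_fromRows]
    simp
  -- reindexing
  set P : Matrix (Fin n ⊕ Fin n) (Fin (n + n)) ℂ :=
    (1 : Matrix (Fin n ⊕ Fin n) (Fin n ⊕ Fin n) ℂ).submatrix id finSumFinEquiv.symm with hP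
  have hPP : P * Pᴴ = 1 := by
    rw [hP, conjTranspose_submatrix, submatrix_mul_equiv]
    simp
  have hPP' : Pᴴ * P = 1 := by
    rw [hP, conjTranspose_submatrix, ← submatrix_mul _ _ _ id _ Function.bijective_id]
    simp
  have hmem : ∀ i, comp P (ofBlk w (M i)) ∈ Un w (n + n) := by
    intro i
    refine ⟨comp_herm (ofBlk_herm hw _) P, ?_⟩
    rw [blk_comp, blk_ofBlk hw]
    calc (dbl P)ᴴ * M i * dbl P * ((dbl P)ᴴ * M i * dbl P)ᴴ
        = (dbl P)ᴴ * M i * (dbl P * (dbl P)ᴴ) * (M i)ᴴ * dbl P := by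
          simp only [conjTranspose_mul, conjTranspose_conjTranspose, Matrix.mul_assoc]
      _ = (dbl P)ᴴ * (M i * (M i)ᴴ) * dbl P := by
          rw [dbl_conj, dbl_mul, hPP, dbl_one, Matrix.mul_one]
          simp only [Matrix.mul_assoc]
      _ = 1 := by rw [hMM, Matrix.mul_one, dbl_conj, dbl_mul, hPP', dbl_one]
  set s : ℝ := (√2)⁻¹ with hs
  have hss : (s : ℂ) * s = 2⁻¹ := by
    have : s * s = 2⁻¹ := by
      rw [hs, ← mul_inv, Real.mul_self_sqrt (by norm_num)]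
    rw [← Complex.ofReal_mul, this]
    simp
  have hstar : star (s : ℂ) = s := by rw [Complex.star_def, Complex.conj_ofReal]
  -- the sum
  have hfin : comp V (ofBlk w (M 0)) + comp V (ofBlk w (M 1)) = (2 : ℂ) • X := by
    apply blk_inj hw
    · intro j
      exact (comp_herm (ofBlk_herm hw _) V j).add (comp_herm (ofBlk_herm hw _) V j)
    · intro j
      unfold Matrix.IsHermitian
      rw [Pi.smul_apply, conjTranspose_smul, (hX j).eq]
      simp
    · rw [blk_add, blk_comp, blk_comp, blk_ofBlk hw, blk_ofBlk hw, blk_smul, ← hC]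
      have e0 : M 0 = (W * Sw).submatrix e e := rfl
      have e1 : M 1 = (Wᴴ * Sw).submatrix e e := rfl
      rw [e0, e1, hcomp, hcomp]
      have : (W * Sw).toBlocks₁₁ + (Wᴴ * Sw).toBlocks₁₁ = ((W + Wᴴ) * Sw).toBlocks₁₁ := by
        rw [Matrix.add_mul]
        rfl
      rw [this, hWs, hZ, hSw, fromBlocks_smul, fromBlocks_multiply]
      simp
  refine mem_mconv (ι := Fin 2) (fun _ => n + n) (fun i => comp P (ofBlk w (M i)))
    (fun _ => (s : ℂ) • (Pᴴ * V)) hmem (fun _ => by omega) ?_ fun j => ?_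
  · rw [Fin.sum_univ_two, conjTranspose_smul, conjTranspose_mul, conjTranspose_conjTranspose,
      Matrix.smul_mul, Matrix.mul_smul, smul_smul, hstar, hss]
    have : Vᴴ * P * (Pᴴ * V) = 1 := by
      rw [Matrix.mul_assoc, ← Matrix.mul_assoc P, hPP, Matrix.one_mul, hVV]
    rw [this, ← add_smul]
    norm_num
  · rw [Fin.sum_univ_two, conjTranspose_smul, conjTranspose_mul, conjTranspose_conjTranspose]
    have key : ∀ i, star (s : ℂ) • (Vᴴ * P) * comp P (ofBlk w (M i)) j * (s : ℂ) • (Pᴴ * V) =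
        (2⁻¹ : ℂ) • comp V (ofBlk w (M i)) j := by
      intro i
      rw [Matrix.smul_mul, Matrix.smul_mul, Matrix.mul_smul, smul_smul, hstar, hss]
      congr 1
      simp only [comp]
      calc Vᴴ * P * (Pᴴ * ofBlk w (M i) j * P) * (Pᴴ * V)
          = Vᴴ * (P * Pᴴ) * ofBlk w (M i) j * (P * Pᴴ) * V := by simp only [Matrix.mul_assoc]
        _ = _ := by rw [hPP, Matrix.mul_one, Matrix.mul_one]
    rw [key, key, ← smul_add]
    have := congr_fun hfin j
    simp only [Pi.add_apply, Pi.smul_apply] at this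
    rw [this, smul_smul]
    norm_num

end Pool.Agent.R279.PJ
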