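import Pool.Agent.R279.PJ.Dil

namespace Pool.Agent.R279.PJ

open Matrix
open scoped ComplexOrder Kronecker

section
variable {α β γ : Type} [Fintype α] [DecidableEq α] [Fintype β] [DecidableEq β] [Fintype γ]
  [DecidableEq γ]

theorem Wt_zero {w : ℂ} {R : Matrix α α ℂ} (hR : R.PosSemidef) : Wt w R 0 := by
  unfold Wt
  rw [blk_zero, conjTranspose_zero]
  have h := psd_dbl hR
  have h1 := h.conjTranspose_mul_mul_same
    (fromCols (1 : Matrix (α ⊕ α) (α ⊕ α) ℂ) (0 : Matrix (α ⊕ α) (α ⊕ α) ℂ))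
  have h2 := h.conjTranspose_mul_mul_same
    (fromCols (0 : Matrix (α ⊕ α) (α ⊕ α) ℂ) (1 : Matrix (α ⊕ α) (α ⊕ α) ℂ))
  convert h1.add h2 using 1
  ext (a | a) (b | b) <;>
  simp [conjTranspose_fromCols_eq_fromRows_conjTranspose, Matrix.mul_fromCols, fromRows_mul]

theorem diag_psd {d : α → ℝ} (hd : ∀ a, 0 ≤ d a) :
    (diagonal (fun a => (d a : ℂ))).PosSemidef := by
  rw [posSemidef_diagonal_iff]
  intro a
  exact_mod_cast hd a

theorem kernel_zero {w : ℂ} (hw : IU w) {P F : Matrix α α ℂ} {X : Fin 8 → Matrix α α ℂ}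
    (hX : ∀ j, (X j).IsHermitian) (h : Wt w P X) (hF : P * F = 0) : ∀ j, X j * F = 0 := by
  set C := blk w X with hC
  set E₁ : Matrix ((α ⊕ α) ⊕ (α ⊕ α)) (α ⊕ α) ℂ := fromRows (dbl F) 0 with hE₁
  set E₂ : Matrix ((α ⊕ α) ⊕ (α ⊕ α)) (α ⊕ α) ℂ := fromRows 0 (dbl F) with hE₂
  have e1 : fromBlocks (dbl P) C Cᴴ (dbl P) * E₁ = fromRows 0 (Cᴴ * dbl F) := by
    rw [hE₁, fromBlocks_mul_fromRows, dbl_mul, hF, dbl_zero]
    simp
  have e2 : fromBlocks (dbl P) C Cᴴ (dbl P) * E₂ = fromRows (C * dbl F) 0 := by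
    rw [hE₂, fromBlocks_mul_fromRows, dbl_mul, hF, dbl_zero]
    simp
  have z1 : fromBlocks (dbl P) C Cᴴ (dbl P) * E₁ = 0 := by
    apply psd_mul_zero h
    rw [Matrix.mul_assoc, e1, hE₁, conjTranspose_fromRows_eq_fromCols_conjTranspose,
      fromCols_mul_fromRows]
    simp
  have z2 : fromBlocks (dbl P) C Cᴴ (dbl P) * E₂ = 0 := by
    apply psd_mul_zero h
    rw [Matrix.mul_assoc, e2, hE₂, conjTranspose_fromRows_eq_fromCols_conjTranspose,
      fromCols_mul_fromRows]
    simp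
  rw [e1] at z1
  rw [e2] at z2
  have a1 : Cᴴ * dbl F = 0 := by
    ext i j
    have := congr_fun (congr_fun z1 (Sum.inr i)) j
    simpa using this
  have a2 : C * dbl F = 0 := by
    ext i j
    have := congr_fun (congr_fun z2 (Sum.inl i)) j
    simpa using this
  rw [hC, blk, dbl, fromBlocks_conjTranspose,
    fromBlocks_multiply, ← fromBlocks_zero, fromBlocks_inj] at a1
  rw [hC, blk, dbl, fromBlocks_multiply, ← fromBlocks_zero, fromBlocks_inj] at a2
  simp only [Matrix.mul_zero, add_zero, zero_add] at a1 a2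
  obtain ⟨b1, b2, b3, b4⟩ := a1
  obtain ⟨c1, c2, c3, c4⟩ := a2
  have key : ∀ A B : Matrix α α ℂ, A.IsHermitian → B.IsHermitian → (A + w • B) * F = 0 →
      (A + w • B)ᴴ * F = 0 → A * F = 0 ∧ B * F = 0 := by
    intro A B hA hB h1 h2
    have := sep hw (P := (1 : Matrix α α ℂ)) (C := (0 : Matrix α α ℂ)) (D := (0 : Matrix α α ℂ))
      (V := F) hA hB isHermitian_zero isHermitian_zero (by rw [h1]; simp) (by rw [h2]; simp)
    simpa using this
  have s0 := key _ _ (hX 0) (hX 1) c1 b1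
  have s1 := key _ _ (hX 2) (hX 3) c2 b3
  have s2 := key _ _ (hX 4) (hX 5) c3 b2
  have s3 := key _ _ (hX 6) (hX 7) c4 b4
  intro j
  fin_cases j
  exacts [s0.1, s0.2, s1.1, s1.2, s2.1, s2.2, s3.1, s3.2]

theorem factor {w : ℂ} (hw : IU w) {P : Matrix α α ℂ} {X : Fin 8 → Matrix α α ℂ}
    (hX : ∀ j, (X j).IsHermitian) (h : Wt w P X) : ∃ (S : Matrix α α ℂ) (A : Fin 8 → Matrix α α ℂ),
      Sᴴ * S = P ∧ (∀ j, (A j).IsHermitian) ∧ Wt w 1 A ∧ X = comp S A := by
  obtain ⟨Q, lam, hQ, hQ', hPQ⟩ := spectral h.psd.isHermitian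
  have e1 : Qᴴ * P * Q = diagonal (fun a => (lam a : ℂ)) := by
    rw [hPQ]
    calc Qᴴ * (Q * diagonal (fun a => (lam a : ℂ)) * Qᴴ) * Q
        = (Qᴴ * Q) * diagonal (fun a => (lam a : ℂ)) * (Qᴴ * Q) := by simp only [Matrix.mul_assoc]
      _ = _ := by rw [hQ, Matrix.one_mul, Matrix.mul_one]
  have l0 : ∀ a, 0 ≤ lam a := by
    intro a
    have h := (h.psd.conjTranspose_mul_mul_same Q).diag_nonneg (i := a)
    rw [e1, diagonal_apply_eq] at h
    exact_mod_cast h
  set σ : α → ℝ := fun a => √(lam a) with hσ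
  have hσσ : ∀ a, σ a * σ a = lam a := fun a => Real.mul_self_sqrt (l0 a)
  set D : Matrix α α ℂ := diagonal (fun a => (σ a : ℂ)) with hD
  set D' : Matrix α α ℂ := diagonal (fun a => (((σ a)⁻¹ : ℝ) : ℂ)) with hD'
  have hDh : Dᴴ = D := by
    rw [hD, diagonal_conjTranspose]
    congr 1
    funext a
    simp
  have hDh' : D'ᴴ = D' := by
    rw [hD', diagonal_conjTranspose]
    congr 1
    funext a
    simp
  set ε : α → ℝ := fun a => if lam a = 0 then 0 else 1 with hε
  have hDD' : D' * D = diagonal (fun a => (ε a : ℂ)) := by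
    rw [hD, hD', diagonal_mul_diagonal]
    congr 1
    funext a
    rw [← Complex.ofReal_mul]
    congr 1
    rw [hε]
    dsimp only
    split_ifs with h0
    · have : σ a = 0 := by rw [hσ]; simp [h0]
      rw [this]
      simp
    · have : σ a ≠ 0 := by
        intro h1
        apply h0
        rw [← hσσ a, h1, mul_zero]
      rw [inv_mul_cancel₀ this]
  have hDPD : D' * diagonal (fun a => (lam a : ℂ)) * D' = diagonal (fun a => (ε a : ℂ)) := by
    rw [hD', diagonal_mul_diagonal, diagonal_mul_diagonal]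
    congr 1
    funext a
    rw [← Complex.ofReal_mul, ← Complex.ofReal_mul]
    congr 1
    rw [hε]
    dsimp only
    split_ifs with h0
    · rw [h0]
      simp
    · have : σ a ≠ 0 := by
        intro h1
        apply h0
        rw [← hσσ a, h1, mul_zero]
      rw [← hσσ a]
      field_simp
  set T : Matrix α α ℂ := Q * D' with hT
  set S : Matrix α α ℂ := D * Qᴴ with hS
  have hTS : T * S = Q * diagonal (fun a => (ε a : ℂ)) * Qᴴ := by
    rw [hT, hS, ← hDD']
    simp only [Matrix.mul_assoc]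
  set F : Matrix α α ℂ := Q * diagonal (fun a => ((1 - ε a : ℝ) : ℂ)) * Qᴴ with hF
  have hTSF : T * S = 1 - F := by
    rw [hTS, hF, ← hQ', eq_sub_iff_add_eq, ← Matrix.add_mul, ← Matrix.mul_add, diagonal_add]
    have : (fun a => (ε a : ℂ) + ((1 - ε a : ℝ) : ℂ)) = fun _ => 1 := by
      funext a
      push_cast
      ring
    rw [this, diagonal_one, Matrix.mul_one]
  have hPF : P * F = 0 := by
    rw [hPQ, hF]
    calc Q * diagonal (fun a => (lam a : ℂ)) * Qᴴ * (Q * diagonal (fun a => ((1 - ε a : ℝ) : ℂ)) * Qᴴ)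
        = Q * (diagonal (fun a => (lam a : ℂ)) * (Qᴴ * Q) * diagonal (fun a => ((1 - ε a : ℝ) : ℂ)))
          * Qᴴ := by simp only [Matrix.mul_assoc]
      _ = 0 := by
        rw [hQ, Matrix.mul_one, diagonal_mul_diagonal]
        have : (fun a => (lam a : ℂ) * ((1 - ε a : ℝ) : ℂ)) = fun _ => 0 := by
          funext a
          rw [hε]
          dsimp only
          split_ifs with h0
          · rw [h0]
            simp
          · simp
        rw [this, diagonal_zero, Matrix.mul_zero, Matrix.zero_mul]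
  have hXF := kernel_zero hw hX h hPF
  have hFh : Fᴴ = F := by
    rw [hF, conjTranspose_mul, conjTranspose_mul, conjTranspose_conjTranspose,
      diagonal_conjTranspose, Matrix.mul_assoc]
    congr 3
    funext a
    simp
  have hFX : ∀ j, F * X j = 0 := by
    intro j
    have := congr_arg conjTranspose (hXF j)
    rwa [conjTranspose_mul, hFh, (hX j).eq, conjTranspose_zero] at this
  refine ⟨S, comp T X, ?_, comp_herm hX T, ?_, ?_⟩
  · rw [hS, conjTranspose_mul, conjTranspose_conjTranspose, hDh, hPQ, Matrix.mul_assoc,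
      ← Matrix.mul_assoc D, hD, diagonal_mul_diagonal, ← Matrix.mul_assoc]
    congr 3
    funext a
    rw [← Complex.ofReal_mul, hσσ]
  · have h1 := h.comp T
    have h2 : Tᴴ * P * T = diagonal (fun a => (ε a : ℂ)) := by
      rw [hT, conjTranspose_mul, hDh', ← hDPD, ← e1]
      simp only [Matrix.mul_assoc]
    have h3 : (diagonal (fun a => ((1 - ε a : ℝ) : ℂ)) : Matrix α α ℂ).PosSemidef := by
      apply diag_psd
      intro a
      rw [hε]
      dsimp only
      split_ifs <;> norm_num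
    have h4 := h1.add (Wt_zero (w := w) h3)
    rw [h2, diagonal_add, add_zero] at h4
    have : (fun a => (ε a : ℂ) + ((1 - ε a : ℝ) : ℂ)) = fun _ => 1 := by
      funext a
      push_cast
      ring
    rw [this, diagonal_one] at h4
    exact h4
  · funext j
    simp only [comp]
    calc X j = (1 - F)ᴴ * X j * (1 - F) := by
          rw [conjTranspose_sub, conjTranspose_one, hFh, Matrix.sub_mul, Matrix.one_mul, hFX j,
            sub_zero, Matrix.mul_sub, hXF j, sub_zero, Matrix.mul_one]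
      _ = (T * S)ᴴ * X j * (T * S) := by rw [hTSF]
      _ = _ := by
          rw [conjTranspose_mul]
          simp only [Matrix.mul_assoc]

end

theorem LL_decomp {n : ℕ} {X : Tup 8 n} (h : X ∈ LL n) :
    ∃ (S' S'' : Matrix (Fin n) (Fin n) ℂ) (A' A'' : Tup 8 n), A' ∈ KK Complex.I n ∧
      A'' ∈ KK (-Complex.I) n ∧ S'ᴴ * S' + S''ᴴ * S'' = 1 ∧ X = comp S' A' + comp S'' A'' := by
  obtain ⟨P, X', X'', h', h'', hW', hW'', rfl⟩ := h
  obtain ⟨S', A', hS', hA', hWA', rfl⟩ := factor (Or.inl rfl) h' hW'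
  obtain ⟨S'', A'', hS'', hA'', hWA'', rfl⟩ := factor (Or.inr rfl) h'' hW''
  refine ⟨S', S'', A', A'', ⟨hA', hWA'⟩, ⟨hA'', hWA''⟩, ?_, rfl⟩
  rw [hS', hS'']
  abel

theorem comb_two {g n : ℕ} {S : FreeSet g} (hn : 0 < n) {V W : Matrix (Fin n) (Fin n) ℂ}
    {A B : Tup g n} (hA : A ∈ S n) (hB : B ∈ S n) (hVW : Vᴴ * V + Wᴴ * W = 1) :
    comp V A + comp W B ∈ mconv S n := by
  refine mem_mconv (ι := Fin 2) (fun _ => n) ![A, B] ![V, W] ?_ (fun _ => hn) ?_ fun j => ?_
  · intro i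
    fin_cases i
    · exact hA
    · exact hB
  · rw [Fin.sum_univ_two]
    exact hVW
  · rw [Fin.sum_univ_two]
    rfl

theorem KK_eq_mconv_FE {w : ℂ} (hw : IU w) {n : ℕ} (hn : 0 < n) : KK w n = mconv (FE (KK w)) n := by
  apply Set.Subset.antisymm
  · intro X hX
    have h1 := KK_sub_mconv hw hn hX
    have h2 := mconv_mconv (mconv_mono (S := Un w) (T := mconv (UI w)) Un_sub_mconv n h1)
    refine mconv_mono (fun m _ U hU => ?_) n h2
    exact UI_free hw (KK_convex w) (fun n => KK_sub_LL hw) hU (Un_sub_KK hU.1)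
  · refine (mconv_mono (fun m _ U hU => ?_) n).trans (KK_convex w n hn)
    exact hU.1

theorem LL_eq_mconv_FE {n : ℕ} (hn : 0 < n) : LL n = mconv (FE LL) n := by
  have key : ∀ {w : ℂ}, IU w → ∀ n, 0 < n → KK w n ⊆ mconv (FE LL) n := by
    intro w hw n hn X hX
    have h1 := KK_sub_mconv hw hn hX
    have h2 := mconv_mconv (mconv_mono (S := Un w) (T := mconv (UI w)) Un_sub_mconv n h1)
    refine mconv_mono (fun m _ U hU => ?_) n h2
    exact UI_free hw LL_convex (fun n => subset_rfl) hU (KK_sub_LL hw (Un_sub_KK hU.1))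
  apply Set.Subset.antisymm
  · intro X hX
    obtain ⟨S', S'', A', A'', hA', hA'', hS, rfl⟩ := LL_decomp hX
    exact mconv_mconv (comb_two hn (key (Or.inl rfl) n hn hA') (key (Or.inr rfl) n hn hA'') hS)
  · refine (mconv_mono (fun m _ U hU => ?_) n).trans (LL_convex n hn)
    exact hU.1

end Pool.Agent.R279.PJ
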