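import Pool.Agent.R279.PJ.Blk

namespace Pool.Agent.R279.PJ

open Matrix
open scoped ComplexOrder Kronecker

/-! ### matrix convex combinations over finite types -/

theorem mem_mconv {g n : ℕ} {S : FreeSet g} {ι : Type} [Fintype ι] (m : ι → ℕ)
    (Y : ∀ i, Tup g (m i)) (V : ∀ i, Matrix (Fin (m i)) (Fin n) ℂ) (hY : ∀ i, Y i ∈ S (m i))
    (hm : ∀ i, 0 < m i) (hV : ∑ i, (V i)ᴴ * V i = 1) {X : Tup g n}
    (hX : ∀ j, X j = ∑ i, (V i)ᴴ * Y i j * V i) : X ∈ mconv S n := by
  classical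
  let e := (Fintype.equivFin ι).symm
  refine ⟨Fintype.card ι, m ∘ e, fun i => Y (e i), fun i => V (e i), fun i => hY _,
    fun i => hm _, ?_, fun j => ?_⟩
  · rw [← hV]
    exact Fintype.sum_equiv e _ _ (fun i => rfl)
  · rw [hX j]
    exact (Fintype.sum_equiv e _ _ (fun i => rfl)).symm

theorem mconv_mconv {g n : ℕ} {S : FreeSet g} {X : Tup g n} (h : X ∈ mconv (mconv S) n) :
    X ∈ mconv S n := by
  obtain ⟨k, m, Y, V, hY, hm, hV, hX⟩ := h
  choose k' m' Y' V' hY' hc using hY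
  refine mem_mconv (ι := Σ i : Fin k, Fin (k' i)) (fun p => m' p.1 p.2) (fun p => Y' p.1 p.2)
    (fun p => V' p.1 p.2 * V p.1) (fun p => hY' p.1 p.2) (fun p => (hc p.1).1 p.2) ?_ fun j => ?_
  · rw [Fintype.sum_sigma, ← hV]
    refine Finset.sum_congr rfl fun i _ => ?_
    have h1 := (hc i).2.1
    calc ∑ l, (V' i l * V i)ᴴ * (V' i l * V i) = (V i)ᴴ * (∑ l, (V' i l)ᴴ * V' i l) * V i := by
          rw [Matrix.mul_sum, Matrix.sum_mul]
          refine Finset.sum_congr rfl fun l _ => ?_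
          rw [conjTranspose_mul]
          simp only [Matrix.mul_assoc]
      _ = _ := by rw [h1, Matrix.mul_one]
  · rw [Fintype.sum_sigma, hX j]
    refine Finset.sum_congr rfl fun i _ => ?_
    rw [(hc i).2.2 j, Matrix.mul_sum, Matrix.sum_mul]
    refine Finset.sum_congr rfl fun l _ => ?_
    rw [conjTranspose_mul]
    simp only [Matrix.mul_assoc]

theorem mconv_mono {g : ℕ} {S T : FreeSet g} (h : ∀ n, 0 < n → S n ⊆ T n) (n : ℕ) :
    mconv S n ⊆ mconv T n := by
  rintro X ⟨k, m, Y, V, hY, hc⟩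
  exact ⟨k, m, Y, V, fun i => h _ (hc.1 i) (hY i), hc⟩

theorem sub_mconv {g : ℕ} (S : FreeSet g) {n : ℕ} (hn : 0 < n) : S n ⊆ mconv S n := by
  intro X hX
  refine mem_mconv (ι := Fin 1) (fun _ => n) (fun _ => X) (fun _ => 1) (fun _ => hX) (fun _ => hn)
    ?_ fun j => ?_
  · simp
  · simp

section
variable {α β γ : Type} [Fintype α] [DecidableEq α] [Fintype β] [DecidableEq β] [Fintype γ]
  [DecidableEq γ]

omit [DecidableEq α] in
theorem tr_fromBlocks (A B C D : Matrix α α ℂ) : (fromBlocks A B C D).trace = A.trace + D.trace := by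
  simp [Matrix.trace, Fintype.sum_sum_type]

/-- purely imaginary units -/
def IU (w : ℂ) : Prop := w = Complex.I ∨ w = -Complex.I

theorem IU.star {w : ℂ} (h : IU w) : star w = -w := by
  rcases h with rfl | rfl <;> simp

theorem IU.re {w : ℂ} (h : IU w) : w.re = 0 := by
  rcases h with rfl | rfl <;> simp

theorem IU.mul_self {w : ℂ} (h : IU w) : w * w = -1 := by
  rcases h with rfl | rfl <;> simp

theorem IU.ne {w : ℂ} (h : IU w) : w ≠ 0 := by
  rcases h with rfl | rfl <;> simp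

theorem IU.neg {w : ℂ} (h : IU w) : IU (-w) := by
  rcases h with rfl | rfl
  · right; rfl
  · left; simp

omit [DecidableEq α] in
theorem tr_real {X U : Matrix α α ℂ} (hX : X.IsHermitian) (hU : U.IsHermitian) :
    (X * U).trace.im = 0 := by
  have h : star (X * U).trace = (X * U).trace := by
    rw [← trace_conjTranspose, conjTranspose_mul, hX.eq, hU.eq, trace_mul_comm]
  exact Complex.conj_eq_iff_im.mp h

omit [Fintype α] [DecidableEq α] in
theorem adj {w : ℂ} (hw : IU w) {A B : Matrix α α ℂ} (hA : A.IsHermitian) (hB : B.IsHermitian) :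
    (A + w • B)ᴴ = A - w • B := by
  rw [conjTranspose_add, conjTranspose_smul, hA.eq, hB.eq, hw.star, neg_smul, ← sub_eq_add_neg]

omit [DecidableEq α] in
theorem pair {w : ℂ} (hw : IU w) {A B C D : Matrix α α ℂ} (hA : A.IsHermitian)
    (hB : B.IsHermitian) (hC : C.IsHermitian) (hD : D.IsHermitian) :
    ((A + w • B) * (C + w • D)ᴴ).trace.re = (A * C).trace.re + (B * D).trace.re := by
  rw [adj hw hC hD]
  have h : (A + w • B) * (C - w • D) = A * C + B * D + w • (B * C) - w • (A * D) := by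
    rw [Matrix.add_mul, Matrix.mul_sub, Matrix.mul_sub, Matrix.smul_mul, Matrix.smul_mul,
      Matrix.mul_smul, Matrix.mul_smul, smul_smul, hw.mul_self]
    rw [neg_one_smul]
    abel
  rw [h, trace_sub, trace_add, trace_add, trace_smul, trace_smul]
  simp [hw.re, tr_real hB hC, tr_real hA hD]

omit [DecidableEq α] in
theorem blk_pair {w : ℂ} (hw : IU w) {X U : Fin 8 → Matrix α α ℂ} (hX : ∀ j, (X j).IsHermitian)
    (hU : ∀ j, (U j).IsHermitian) :
    (blk w X * (blk w U)ᴴ).trace.re = ∑ j, (X j * U j).trace.re := by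
  rw [blk, blk, fromBlocks_conjTranspose, fromBlocks_multiply, tr_fromBlocks, trace_add,
    trace_add, Complex.add_re, Complex.add_re, Complex.add_re,
    pair hw (hX 0) (hX 1) (hU 0) (hU 1), pair hw (hX 2) (hX 3) (hU 2) (hU 3),
    pair hw (hX 4) (hX 5) (hU 4) (hU 5), pair hw (hX 6) (hX 7) (hU 6) (hU 7)]
  simp only [Fin.sum_univ_eight]
  ring

/-- sum of the diagonal blocks -/
def tr2 (N : Matrix (α ⊕ α) (α ⊕ α) ℂ) : Matrix α α ℂ := N.toBlocks₁₁ + N.toBlocks₂₂

omit [DecidableEq α] in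
theorem trace_dbl_mul (G : Matrix α α ℂ) (N : Matrix (α ⊕ α) (α ⊕ α) ℂ) :
    (dbl G * N).trace = (G * tr2 N).trace := by
  conv_lhs => rw [← fromBlocks_toBlocks N]
  rw [dbl, fromBlocks_multiply, tr_fromBlocks, tr2, Matrix.mul_add, trace_add]
  simp

omit [DecidableEq α] [DecidableEq β] in
theorem psd_mul_zero {T : Matrix α α ℂ} (hT : T.PosSemidef) {E : Matrix α β ℂ}
    (h : Eᴴ * T * E = 0) : T * E = 0 := by
  classical
  have key : ∀ b, T *ᵥ (fun a => E a b) = 0 := by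
    intro b
    rw [← hT.dotProduct_mulVec_zero_iff]
    have := congr_fun (congr_fun h b) b
    rw [Matrix.zero_apply, Matrix.mul_assoc] at this
    exact this
  ext a b
  exact congr_fun (key b) a

omit [DecidableEq α] in
theorem psd_zero_of_re {T : Matrix α α ℂ} (hT : T.PosSemidef) (h : T.trace.re = 0) : T = 0 := by
  have h1 := hT.trace_nonneg
  rw [← hT.trace_eq_zero_iff]
  exact Complex.ext h (Complex.le_def.mp h1).2.symm

omit [DecidableEq α] [Fintype β] [DecidableEq β] in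
theorem sep {w : ℂ} (hw : IU w) {A B P : Matrix α α ℂ} {C D : Matrix β β ℂ} [Fintype β]
    {V : Matrix α β ℂ} (hA : A.IsHermitian) (hB : B.IsHermitian) (hC : C.IsHermitian)
    (hD : D.IsHermitian) (h1 : (A + w • B) * V = P * V * (C + w • D))
    (h2 : (A + w • B)ᴴ * V = P * V * (C + w • D)ᴴ) : A * V = P * V * C ∧ B * V = P * V * D := by
  rw [adj hw hA hB, adj hw hC hD] at h2
  rw [Matrix.add_mul, Matrix.mul_add] at h1
  rw [Matrix.sub_mul, Matrix.mul_sub] at h2
  constructor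
  · have h3 : (2 : ℂ) • (A * V) = (2 : ℂ) • (P * V * C) := by
      rw [two_smul, two_smul]
      calc A * V + A * V = (A * V + w • B * V) + (A * V - w • B * V) := by abel
        _ = (P * V * C + P * V * w • D) + (P * V * C - P * V * w • D) := by rw [h1, h2]
        _ = _ := by abel
    exact smul_right_injective _ (two_ne_zero' ℂ) h3
  · have h3 : (2 * w) • (B * V) = (2 * w) • (P * V * D) := by
      rw [mul_smul, mul_smul, two_smul, two_smul, ← Matrix.smul_mul, ← Matrix.mul_smul]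
      calc w • B * V + w • B * V = (A * V + w • B * V) - (A * V - w • B * V) := by abel
        _ = (P * V * C + P * V * w • D) - (P * V * C - P * V * w • D) := by rw [h1, h2]
        _ = _ := by abel
    exact smul_right_injective _ (mul_ne_zero two_ne_zero hw.ne) h3

theorem deficit {w : ℂ} (hw : IU w) {P : Matrix α α ℂ} {Y : Fin 8 → Matrix α α ℂ}
    (hY : ∀ j, (Y j).IsHermitian) (h : Wt w P Y) {U : Fin 8 → Matrix β β ℂ}
    (hU : ∀ j, (U j).IsHermitian) (h1 : tr2 ((blk w U)ᴴ * blk w U) = (2 : ℂ) • 1)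
    (h2 : tr2 (blk w U * (blk w U)ᴴ) = (2 : ℂ) • 1) (V : Matrix α β ℂ) :
    0 ≤ 2 * (Vᴴ * P * V).trace.re - ∑ j, (comp V Y j * U j).trace.re ∧
    (2 * (Vᴴ * P * V).trace.re - ∑ j, (comp V Y j * U j).trace.re = 0 →
      ∀ j, Y j * V = P * V * U j) := by
  set C := blk w Y with hC
  set M := blk w U with hM
  set W := dbl V with hW
  set S := ∑ j, (comp V Y j * U j).trace.re with hS
  set G := Vᴴ * P * V with hG
  have hS1 : (Wᴴ * C * W * Mᴴ).trace.re = S := by
    rw [hC, hW, ← blk_comp, hM, blk_pair hw (comp_herm hY V) hU]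
  have hS2 : (M * Wᴴ * Cᴴ * W).trace.re = S := by
    rw [← hS1]
    have : (M * Wᴴ * Cᴴ * W) = (Wᴴ * C * W * Mᴴ)ᴴ := by
      simp only [conjTranspose_mul, conjTranspose_conjTranspose, Matrix.mul_assoc]
    rw [this, trace_conjTranspose]
    simp
  have hG1 : Wᴴ * dbl P * W = dbl G := by
    rw [hW, dbl_conj, dbl_mul, dbl_mul]
  have hG2 : (dbl G).trace.re = 2 * G.trace.re := by
    rw [dbl, tr_fromBlocks, Complex.add_re]
    ring
  have hG3 : (M * dbl G * Mᴴ).trace.re = 2 * G.trace.re := by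
    rw [Matrix.mul_assoc, trace_mul_comm, Matrix.mul_assoc, trace_dbl_mul, h1, Matrix.mul_smul, Matrix.mul_one,
      trace_smul]
    simp
  have hG4 : (Mᴴ * dbl G * M).trace.re = 2 * G.trace.re := by
    rw [Matrix.mul_assoc, trace_mul_comm, Matrix.mul_assoc, trace_dbl_mul, h2, Matrix.mul_smul, Matrix.mul_one,
      trace_smul]
    simp
  set E₁ := fromRows W (-(W * Mᴴ)) with hE₁
  set E₂ := fromRows (-(W * M)) W with hE₂
  have p1 := PosSemidef.conjTranspose_mul_mul_same h E₁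
  have p2 := PosSemidef.conjTranspose_mul_mul_same h E₂
  have e1 : fromBlocks (dbl P) C Cᴴ (dbl P) * E₁ =
      fromRows (dbl P * W - C * W * Mᴴ) (Cᴴ * W - dbl P * W * Mᴴ) := by
    rw [hE₁, fromBlocks_mul_fromRows]
    simp only [Matrix.mul_neg, ← Matrix.mul_assoc, sub_eq_add_neg]
  have e2 : fromBlocks (dbl P) C Cᴴ (dbl P) * E₂ =
      fromRows (C * W - dbl P * W * M) (dbl P * W - Cᴴ * W * M) := by
    rw [hE₂, fromBlocks_mul_fromRows]
    simp only [Matrix.mul_neg, ← Matrix.mul_assoc, sub_eq_add_neg]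
    congr 1 <;> abel
  have t1 : (E₁ᴴ * fromBlocks (dbl P) C Cᴴ (dbl P) * E₁).trace.re = 2 * (2 * G.trace.re - S) := by
    rw [Matrix.mul_assoc, e1, hE₁, conjTranspose_fromRows_eq_fromCols_conjTranspose,
      fromCols_mul_fromRows]
    have : Wᴴ * (dbl P * W - C * W * Mᴴ) + (-(W * Mᴴ))ᴴ * (Cᴴ * W - dbl P * W * Mᴴ) =
        dbl G - Wᴴ * C * W * Mᴴ - M * Wᴴ * Cᴴ * W + M * dbl G * Mᴴ := by
      rw [← hG1]
      simp only [conjTranspose_neg, conjTranspose_mul, conjTranspose_conjTranspose, Matrix.mul_sub,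
        Matrix.neg_mul, Matrix.mul_assoc]
      abel
    rw [this, trace_add, trace_sub, trace_sub, Complex.add_re, Complex.sub_re, Complex.sub_re, hG2,
      hG3, hS1, hS2]
    ring
  have t2 : (E₂ᴴ * fromBlocks (dbl P) C Cᴴ (dbl P) * E₂).trace.re = 2 * (2 * G.trace.re - S) := by
    rw [Matrix.mul_assoc, e2, hE₂, conjTranspose_fromRows_eq_fromCols_conjTranspose,
      fromCols_mul_fromRows]
    have : (-(W * M))ᴴ * (C * W - dbl P * W * M) + Wᴴ * (dbl P * W - Cᴴ * W * M) =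
        dbl G - Mᴴ * (Wᴴ * C * W) - Wᴴ * Cᴴ * W * M + Mᴴ * dbl G * M := by
      rw [← hG1]
      simp only [conjTranspose_neg, conjTranspose_mul, Matrix.mul_sub,
        Matrix.neg_mul, Matrix.mul_assoc]
      abel
    rw [this, trace_add, trace_sub, trace_sub, Complex.add_re, Complex.sub_re, Complex.sub_re, hG2,
      hG4, trace_mul_comm Mᴴ (Wᴴ * C * W), hS1, trace_mul_comm (Wᴴ * Cᴴ * W) M, ← Matrix.mul_assoc, ← Matrix.mul_assoc, hS2]
    ring
  constructor
  · have := (Complex.le_def.mp p1.trace_nonneg).1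
    rw [Complex.zero_re] at this
    have t1' := t1
    rw [hC] at t1'
    rw [t1'] at this
    linarith
  · intro h0
    have z1 := psd_mul_zero h (psd_zero_of_re p1 (by rw [← hC, t1, h0, mul_zero]))
    have z2 := psd_mul_zero h (psd_zero_of_re p2 (by rw [← hC, t2, h0, mul_zero]))
    rw [← hC, e1] at z1
    rw [← hC, e2] at z2
    have a1 : Cᴴ * W = dbl P * W * Mᴴ := by
      rw [← sub_eq_zero]
      ext i j
      have := congr_fun (congr_fun z1 (Sum.inr i)) j
      simpa using this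
    have a2 : C * W = dbl P * W * M := by
      rw [← sub_eq_zero]
      ext i j
      have := congr_fun (congr_fun z2 (Sum.inl i)) j
      simpa using this
    rw [hC, hM, hW, blk, blk, dbl, dbl, fromBlocks_conjTranspose, fromBlocks_conjTranspose,
      fromBlocks_multiply, fromBlocks_multiply, fromBlocks_multiply, fromBlocks_inj] at a1
    rw [hC, hM, hW, blk, blk, dbl, dbl,
      fromBlocks_multiply, fromBlocks_multiply, fromBlocks_multiply, fromBlocks_inj] at a2
    simp only [Matrix.mul_zero, Matrix.zero_mul, add_zero, zero_add] at a1 a2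
    obtain ⟨b1, b2, b3, b4⟩ := a1
    obtain ⟨c1, c2, c3, c4⟩ := a2
    have s0 := sep hw (hY 0) (hY 1) (hU 0) (hU 1) c1 b1
    have s1 := sep hw (hY 2) (hY 3) (hU 2) (hU 3) c2 b3
    have s2 := sep hw (hY 4) (hY 5) (hU 4) (hU 5) c3 b2
    have s3 := sep hw (hY 6) (hY 7) (hU 6) (hU 7) c4 b4
    intro j
    fin_cases j
    exacts [s0.1, s0.2, s1.1, s1.2, s2.1, s2.2, s3.1, s3.2]

omit [DecidableEq α] in
theorem tr2_neg {w : ℂ} (hw : IU w) {U : Fin 8 → Matrix α α ℂ} (hU : ∀ j, (U j).IsHermitian) :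
    tr2 ((blk (-w) U)ᴴ * blk (-w) U) = tr2 (blk w U * (blk w U)ᴴ) := by
  rw [blk, blk, fromBlocks_conjTranspose, fromBlocks_conjTranspose, fromBlocks_multiply,
    fromBlocks_multiply, tr2, tr2]
  simp only [toBlocks_fromBlocks₁₁, toBlocks_fromBlocks₂₂]
  rw [adj hw (hU 0) (hU 1), adj hw (hU 2) (hU 3), adj hw (hU 4) (hU 5), adj hw (hU 6) (hU 7),
    adj hw.neg (hU 0) (hU 1), adj hw.neg (hU 2) (hU 3), adj hw.neg (hU 4) (hU 5),
    adj hw.neg (hU 6) (hU 7)]
  simp only [neg_smul, sub_neg_eq_add, ← sub_eq_add_neg]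
  abel

omit [DecidableEq α] in
theorem tr2_neg' {w : ℂ} (hw : IU w) {U : Fin 8 → Matrix α α ℂ} (hU : ∀ j, (U j).IsHermitian) :
    tr2 (blk (-w) U * (blk (-w) U)ᴴ) = tr2 ((blk w U)ᴴ * blk w U) := by
  have := tr2_neg hw.neg hU
  rw [neg_neg] at this
  exact this.symm

theorem tr2_one : tr2 (1 : Matrix (α ⊕ α) (α ⊕ α) ℂ) = (2 : ℂ) • 1 := by
  rw [tr2, ← fromBlocks_one, toBlocks_fromBlocks₁₁, toBlocks_fromBlocks₂₂, two_smul]

end

/-- the unitary tuples -/
def Un (w : ℂ) : FreeSet 8 := fun _ => {U | (∀ j, (U j).IsHermitian) ∧ blk w U * (blk w U)ᴴ = 1}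

theorem rigid {w : ℂ} (hw : IU w) {n k : ℕ} {m : Fin k → ℕ} {Y : ∀ i, Tup 8 (m i)}
    {V : ∀ i, Matrix (Fin (m i)) (Fin n) ℂ} {U : Tup 8 n} (hU : U ∈ Un w n)
    (hY : ∀ i, Y i ∈ LL (m i)) (hc : IsComb m Y V U) : ∀ i j, Y i j * V i = V i * U j := by
  obtain ⟨hUh, hU1⟩ := hU
  have hU2 : (blk w U)ᴴ * blk w U = 1 := mul_eq_one_comm.mp hU1
  obtain ⟨hm, hV, hX⟩ := hc
  choose P Y' Y'' h' h'' hW' hW'' hadd using hY
  have d : ∀ w', IU w' → tr2 ((blk w' U)ᴴ * blk w' U) = (2 : ℂ) • 1 ∧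
      tr2 (blk w' U * (blk w' U)ᴴ) = (2 : ℂ) • 1 := by
    intro w' hw'
    have : w' = w ∨ w' = -w := by
      rcases hw with rfl | rfl <;> rcases hw' with rfl | rfl <;> simp
    rcases this with rfl | rfl
    · rw [hU1, hU2]
      exact ⟨tr2_one, tr2_one⟩
    · rw [tr2_neg hw hUh, tr2_neg' hw hUh, hU1, hU2]
      exact ⟨tr2_one, tr2_one⟩
  have hI : IU Complex.I := Or.inl rfl
  have hI' : IU (-Complex.I) := Or.inr rfl
  have D1 := fun i => deficit hI (h' i) (hW' i) hUh (d _ hI).1 (d _ hI).2 (V i)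
  have D2 := fun i => deficit hI' (h'' i) (hW'' i) hUh (d _ hI').1 (d _ hI').2 (V i)
  have hsplit : ∀ i, (2 * ((V i)ᴴ * P i * V i).trace.re - ∑ j, (comp (V i) (Y' i) j * U j).trace.re) +
      (2 * ((V i)ᴴ * (1 - P i) * V i).trace.re - ∑ j, (comp (V i) (Y'' i) j * U j).trace.re) =
      2 * ((V i)ᴴ * V i).trace.re - ∑ j, ((V i)ᴴ * Y i j * V i * U j).trace.re := by
    intro i
    have e1 : (V i)ᴴ * (1 - P i) * V i = (V i)ᴴ * V i - (V i)ᴴ * P i * V i := by
      rw [Matrix.mul_sub, Matrix.sub_mul, Matrix.mul_one]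
    have e2 : ∀ j, ((V i)ᴴ * Y i j * V i * U j).trace.re =
        (comp (V i) (Y' i) j * U j).trace.re + (comp (V i) (Y'' i) j * U j).trace.re := by
      intro j
      rw [← Complex.add_re, ← trace_add, ← Matrix.add_mul, hadd i]
      simp [comp, Matrix.mul_add, Matrix.add_mul]
    rw [e1, trace_sub, Complex.sub_re]
    simp only [e2, Finset.sum_add_distrib]
    ring
  have htot : ∑ i, (2 * ((V i)ᴴ * V i).trace.re - ∑ j, ((V i)ᴴ * Y i j * V i * U j).trace.re) = 0 := by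
    rw [Finset.sum_sub_distrib, ← Finset.mul_sum, Finset.sum_comm]
    have e1 : ∑ i, ((V i)ᴴ * V i).trace.re = n := by
      rw [← Complex.re_sum, ← trace_sum, hV, trace_one]
      simp
    have e2 : ∀ j, ∑ i, ((V i)ᴴ * Y i j * V i * U j).trace.re = (U j * U j).trace.re := by
      intro j
      rw [← Complex.re_sum, ← trace_sum, ← Matrix.sum_mul, ← hX j]
    rw [e1]
    simp only [e2]
    rw [← blk_pair hw hUh hUh, hU1, trace_one]
    simp
    ring
  have hz : ∀ i, 2 * ((V i)ᴴ * V i).trace.re - ∑ j, ((V i)ᴴ * Y i j * V i * U j).trace.re = 0 := by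
    intro i
    refine (Finset.sum_eq_zero_iff_of_nonneg fun i _ => ?_).mp htot i (Finset.mem_univ i)
    rw [← hsplit i]
    exact add_nonneg (D1 i).1 (D2 i).1
  intro i j
  have z := hz i
  rw [← hsplit i] at z
  have z1 := (D1 i).2 (by linarith [(D1 i).1, (D2 i).1]) j
  have z2 := (D2 i).2 (by linarith [(D1 i).1, (D2 i).1]) j
  rw [hadd i, Pi.add_apply, Matrix.add_mul, z1, z2, ← Matrix.add_mul, ← Matrix.add_mul,
    add_sub_cancel, Matrix.one_mul]

end Pool.Agent.R279.PJ
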