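import Pool.Agent.R279.PJ.Fe

namespace Pool.Agent.R279.PJ

open Matrix
open scoped ComplexOrder Kronecker

/-- irreducible tuples: every Hermitian matrix commuting with the tuple is scalar -/
def Irr {n : ℕ} (U : Tup 8 n) : Prop :=
  ∀ T : Matrix (Fin n) (Fin n) ℂ, T.IsHermitian → (∀ j, T * U j = U j * T) →
    ∃ c : ℝ, T = (c : ℂ) • 1

theorem comp_mem {K : FreeSet 8} (hK : MatrixConvex K) {m r : ℕ} (hm : 0 < m) (hr : 0 < r)
    {Y : Tup 8 m} (hY : Y ∈ K m) {V : Matrix (Fin m) (Fin r) ℂ} (hV : Vᴴ * V = 1) :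
    comp V Y ∈ K r := by
  apply hK r hr
  refine mem_mconv (ι := Fin 1) (fun _ => m) (fun _ => Y) (fun _ => V) (fun _ => hY) (fun _ => hm)
    ?_ fun j => ?_
  · simpa using hV
  · simp [comp]

theorem free_of_rigid {K : FreeSet 8} (hK : MatrixConvex K) {n : ℕ} {U : Tup 8 n} (hU : U ∈ K n)
    (hUh : ∀ j, (U j).IsHermitian) (hKh : SelfAdj K) (hirr : Irr U)
    (hrig : ∀ (k : ℕ) (m : Fin k → ℕ) (Y : ∀ i, Tup 8 (m i)) (V : ∀ i, Matrix (Fin (m i)) (Fin n) ℂ),
      (∀ i, Y i ∈ K (m i)) → IsComb m Y V U → ∀ i j, Y i j * V i = V i * U j) :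
    FreeExtreme K n U := by
  refine ⟨hU, fun k m Y V hY hc hV0 i => ?_⟩
  have hr := hrig k m Y V hY hc i
  have hr' : ∀ j, (V i)ᴴ * Y i j = U j * (V i)ᴴ := by
    intro j
    have := congr_arg conjTranspose (hr j)
    rw [conjTranspose_mul, conjTranspose_mul, (hKh _ _ (hY i) j).eq, (hUh j).eq] at this
    exact this
  have hmi : 0 < m i := hc.1 i
  -- the commutant
  obtain ⟨c, hcc⟩ := hirr ((V i)ᴴ * V i) (isHermitian_conjTranspose_mul_self _) (fun j => by
    rw [Matrix.mul_assoc, ← hr j, ← Matrix.mul_assoc, hr' j, Matrix.mul_assoc])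
  have hn : 0 < n := by
    rcases Nat.eq_zero_or_pos n with h0 | h0
    · exfalso
      subst h0
      exact hV0 i (by ext a b; exact b.elim0)
    · exact h0
  have hctr : ((V i)ᴴ * V i).trace = (c : ℂ) * n := by
    rw [hcc, trace_smul, trace_one]
    simp
  have hcne : c ≠ 0 := by
    intro h0
    rw [h0] at hctr
    simp only [Complex.ofReal_zero, zero_mul] at hctr
    exact hV0 i (trace_conjTranspose_mul_self_eq_zero_iff.mp hctr)
  have hcpos : 0 < c := by
    have h1 := (posSemidef_conjTranspose_mul_self (V i)).trace_nonneg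
    rw [hctr] at h1
    have h2 := (Complex.le_def.mp h1).1
    simp only [Complex.zero_re, Complex.mul_re, Complex.ofReal_re, Complex.natCast_re,
      Complex.ofReal_im, Complex.natCast_im, mul_zero, sub_zero] at h2
    have h3 : (0 : ℝ) < n := by exact_mod_cast hn
    have h4 : 0 ≤ c := nonneg_of_mul_nonneg_left h2 h3
    exact lt_of_le_of_ne h4 (Ne.symm hcne)
  set s : ℝ := (√c)⁻¹ with hs
  have hss : s * s * c = 1 := by
    rw [hs]
    have := Real.mul_self_sqrt hcpos.le
    have h2 : √c ≠ 0 := (Real.sqrt_pos.mpr hcpos).ne'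
    field_simp
    rw [sq, this]
  set W : Matrix (Fin (m i)) (Fin n) ℂ := (s : ℂ) • V i with hW
  have hWW : Wᴴ * W = 1 := by
    rw [hW, conjTranspose_smul, Matrix.smul_mul, Matrix.mul_smul, hcc, smul_smul, smul_smul]
    have : star (s : ℂ) * (s : ℂ) * (c : ℂ) = 1 := by
      rw [Complex.star_def, Complex.conj_ofReal]
      exact_mod_cast hss
    rw [this, one_smul]
  have hYW : ∀ j, Y i j * W = W * U j := by
    intro j
    rw [hW, Matrix.mul_smul, Matrix.smul_mul, hr j]
  have hWY : ∀ j, Wᴴ * Y i j = U j * Wᴴ := by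
    intro j
    rw [hW, conjTranspose_smul, Matrix.mul_smul, Matrix.smul_mul, hr' j]
  obtain ⟨r, Z, hZ, hWZ, hsum, hnr⟩ := compl_isometry hWW
  have hZW : Zᴴ * W = 0 := by
    have := congr_arg conjTranspose hWZ
    rwa [conjTranspose_mul, conjTranspose_conjTranspose, conjTranspose_zero] at this
  rcases Nat.eq_zero_or_pos r with h0 | h0
  · left
    subst h0
    have hZ0 : Z * Zᴴ = 0 := by
      ext a b
      simp [Matrix.mul_apply]
    rw [hZ0, add_zero] at hsum
    refine ⟨by omega, Wᴴ, ?_, ?_, fun j => ?_⟩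
    · rw [conjTranspose_conjTranspose]
      exact hWW
    · rw [conjTranspose_conjTranspose]
      exact hsum
    · rw [conjTranspose_conjTranspose, ← hYW j, Matrix.mul_assoc, hsum, Matrix.mul_one]
  · right
    refine ⟨by omega, r, comp Z (Y i), h0, comp_mem hK (hc.1 i) h0 (hY i) hZ, fromRows Wᴴ Zᴴ,
      ?_, ?_, fun j => ?_⟩
    · rw [conjTranspose_fromRows_eq_fromCols_conjTranspose, conjTranspose_conjTranspose,
        conjTranspose_conjTranspose, fromRows_mul_fromCols, hWW, hWZ, hZW, hZ, fromBlocks_one]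
    · rw [conjTranspose_fromRows_eq_fromCols_conjTranspose, conjTranspose_conjTranspose,
        conjTranspose_conjTranspose, fromCols_mul_fromRows, hsum]
    · rw [conjTranspose_fromRows_eq_fromCols_conjTranspose, conjTranspose_conjTranspose,
        conjTranspose_conjTranspose, dsum, fromCols_mul_fromBlocks, fromCols_mul_fromRows]
      simp only [Matrix.mul_zero, add_zero, zero_add, comp]
      have e1 : Y i j * Z = Z * (Zᴴ * Y i j * Z) := by
        have : Y i j * Z = (W * Wᴴ + Z * Zᴴ) * (Y i j * Z) := by rw [hsum, Matrix.one_mul]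
        rw [Matrix.add_mul] at this
        rw [this, Matrix.mul_assoc W, ← Matrix.mul_assoc Wᴴ, hWY j, Matrix.mul_assoc (U j), hWZ]
        simp [Matrix.mul_assoc]
      rw [← e1, ← hYW j, Matrix.mul_assoc, Matrix.mul_assoc, ← Matrix.mul_add, hsum, Matrix.mul_one]

/-- unitary irreducible tuples -/
def UI (w : ℂ) : FreeSet 8 := fun n => {U | U ∈ Un w n ∧ Irr U}

theorem Un_sub_KK {w : ℂ} {n : ℕ} : Un w n ⊆ KK w n := by
  rintro U ⟨hU, hU1⟩
  refine ⟨hU, ?_⟩
  unfold Wt
  rw [dbl_one]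
  have := posSemidef_self_mul_conjTranspose (fromRows (blk w U) (1 : Matrix (Fin n ⊕ Fin n) (Fin n ⊕ Fin n) ℂ))
  rw [conjTranspose_fromRows_eq_fromCols_conjTranspose, fromRows_mul_fromCols] at this
  simpa [hU1] using this

theorem KK_sub_LL {w : ℂ} (hw : IU w) {n : ℕ} : KK w n ⊆ LL n := by
  rcases hw with rfl | rfl
  · exact KK_I_sub
  · exact KK_negI_sub

theorem LL_selfAdj : SelfAdj LL := by
  rintro n X ⟨P, X', X'', h', h'', -, -, rfl⟩ j
  exact (h' j).add (h'' j)

theorem KK_selfAdj (w : ℂ) : SelfAdj (KK w) := fun _ _ hX => hX.1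

theorem UI_free {w : ℂ} (hw : IU w) {K : FreeSet 8} (hK : MatrixConvex K) (hKL : ∀ n, K n ⊆ LL n)
    {n : ℕ} {U : Tup 8 n} (hU : U ∈ UI w n) (hUK : U ∈ K n) : FreeExtreme K n U :=
  free_of_rigid hK hUK hU.1.1 (fun n X hX => LL_selfAdj n X (hKL n hX)) hU.2
    (fun _ _ _ _ hY hc => rigid hw hU.1 (fun i => hKL _ (hY i)) hc)

theorem Un_sub_mconv {w : ℂ} : ∀ n : ℕ, 0 < n → Un w n ⊆ mconv (UI w) n := by
  intro n
  induction n using Nat.strong_induction_on with
  | _ n ih =>
  intro hn U hU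
  by_cases hirr : Irr U
  · exact sub_mconv _ hn ⟨hU, hirr⟩
  · unfold Irr at hirr
    push Not at hirr
    obtain ⟨T, hT, hTU, hns⟩ := hirr
    obtain ⟨r, s, V, W, hV, hW, hVW, hsum, hr, hs, hr0, hs0, hred⟩ := split_nonscalar hn hT hns
    have hWV : Wᴴ * V = 0 := by
      have := congr_arg conjTranspose hVW
      rwa [conjTranspose_mul, conjTranspose_conjTranspose, conjTranspose_zero] at this
    have hred' := fun j => hred (U j) (hTU j)
    -- compressions are unitary
    have key : ∀ {a b : ℕ} (A : Matrix (Fin n) (Fin a) ℂ) (B : Matrix (Fin n) (Fin b) ℂ),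
        Aᴴ * A = 1 → A * Aᴴ + B * Bᴴ = 1 → (∀ j, Aᴴ * U j * B = 0) → comp A U ∈ Un w a := by
      intro a b A B hA hAB h0
      refine ⟨comp_herm hU.1 A, ?_⟩
      have e0 : (dbl A)ᴴ * blk w U * dbl B = 0 := by
        rw [dbl_conj]
        simp [blk, dbl, fromBlocks_multiply, Matrix.mul_add, Matrix.add_mul, h0]
      have e1 : dbl A * (dbl A)ᴴ = 1 - dbl B * (dbl B)ᴴ := by
        rw [dbl_conj, dbl_conj, dbl_mul, dbl_mul, ← dbl_one, ← hAB, dbl_add]
        abel
      have e2 : (dbl A)ᴴ * dbl A = 1 := by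
        rw [dbl_conj, dbl_mul, hA, dbl_one]
      rw [blk_comp]
      calc (dbl A)ᴴ * blk w U * dbl A * ((dbl A)ᴴ * blk w U * dbl A)ᴴ
          = (dbl A)ᴴ * blk w U * (dbl A * (dbl A)ᴴ) * (blk w U)ᴴ * dbl A := by
            simp only [conjTranspose_mul, conjTranspose_conjTranspose, Matrix.mul_assoc]
        _ = (dbl A)ᴴ * (blk w U * (blk w U)ᴴ) * dbl A -
            ((dbl A)ᴴ * blk w U * dbl B) * (dbl B)ᴴ * (blk w U)ᴴ * dbl A := by
            rw [e1]
            simp only [Matrix.mul_sub, Matrix.sub_mul, Matrix.mul_one, Matrix.mul_assoc]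
        _ = 1 := by
            rw [e0, hU.2, Matrix.mul_one, e2]
            simp
    have hU1 := key V W hV hsum (fun j => (hred' j).1)
    have hU2 := key W V hW (by rw [add_comm]; exact hsum) (fun j => (hred' j).2)
    have m1 := ih r hr hr0 hU1
    have m2 := ih s hs hs0 hU2
    apply mconv_mconv
    refine mem_mconv (ι := Fin 2) ![r, s]
      (fun i => match i with
        | 0 => comp V U
        | 1 => comp W U)
      (fun i => match i with
        | 0 => Vᴴ
        | 1 => Wᴴ) ?_ ?_ ?_ fun j => ?_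
    · intro i
      fin_cases i
      · exact m1
      · exact m2
    · intro i
      fin_cases i
      · exact hr0
      · exact hs0
    · rw [Fin.sum_univ_two]
      change (Vᴴ)ᴴ * Vᴴ + (Wᴴ)ᴴ * Wᴴ = 1
      rw [conjTranspose_conjTranspose, conjTranspose_conjTranspose]
      exact hsum
    · rw [Fin.sum_univ_two]
      change U j = (Vᴴ)ᴴ * (Vᴴ * U j * V) * Vᴴ + (Wᴴ)ᴴ * (Wᴴ * U j * W) * Wᴴ
      rw [conjTranspose_conjTranspose, conjTranspose_conjTranspose]
      have h1 := (hred' j).1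
      have h2 := (hred' j).2
      calc U j = (V * Vᴴ + W * Wᴴ) * U j * (V * Vᴴ + W * Wᴴ) := by
            rw [hsum, Matrix.one_mul, Matrix.mul_one]
        _ = V * (Vᴴ * U j * V) * Vᴴ + V * (Vᴴ * U j * W) * Wᴴ + W * (Wᴴ * U j * V) * Vᴴ
            + W * (Wᴴ * U j * W) * Wᴴ := by
            simp only [Matrix.add_mul, Matrix.mul_add, Matrix.mul_assoc]
            abel
        _ = _ := by
            rw [h1, h2]
            simp

end Pool.Agent.R279.PJ
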