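import Pool.Agent.R279.PJ.Defs

namespace Pool.Agent.R279.PJ

open Matrix
open scoped ComplexOrder Kronecker

/-- splitting of the space by a Hermitian matrix -/
theorem split {N : ℕ} {T : Matrix (Fin N) (Fin N) ℂ} (hT : T.IsHermitian) (p : ℝ → Prop) :
    ∃ (r s : ℕ) (V : Matrix (Fin N) (Fin r) ℂ) (W : Matrix (Fin N) (Fin s) ℂ) (μ : Fin r → ℝ)
      (ν : Fin s → ℝ), Vᴴ * V = 1 ∧ Wᴴ * W = 1 ∧ Vᴴ * W = 0 ∧ V * Vᴴ + W * Wᴴ = 1 ∧
      (∀ a, p (μ a)) ∧ (∀ a, ¬ p (ν a)) ∧ T * V = V * diagonal (fun a => (μ a : ℂ)) ∧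
      T * W = W * diagonal (fun a => (ν a : ℂ)) ∧ r + s = N := by
  classical
  set lam : Fin N → ℝ := hT.eigenvalues with hlam
  set Q : Matrix (Fin N) (Fin N) ℂ := (hT.eigenvectorUnitary : Matrix (Fin N) (Fin N) ℂ) with hQ
  have hQ1 : Qᴴ * Q = 1 := Unitary.coe_star_mul_self hT.eigenvectorUnitary
  have hQ2 : Q * Qᴴ = 1 := Unitary.coe_mul_star_self hT.eigenvectorUnitary
  have hTQ : T * Q = Q * diagonal (fun a => (lam a : ℂ)) := by
    have h := hT.spectral_theorem
    have h2 : T = Q * diagonal (fun a => (lam a : ℂ)) * Qᴴ := by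
      rw [Unitary.conjStarAlgAut_apply] at h
      exact h
    calc T * Q = (Q * diagonal (fun a => (lam a : ℂ)) * Qᴴ) * Q := by rw [← h2]
      _ = Q * diagonal (fun a => (lam a : ℂ)) * (Qᴴ * Q) := by simp only [Matrix.mul_assoc]
      _ = _ := by rw [hQ1, Matrix.mul_one]
  let e := Fintype.equivFin {a // p (lam a)}
  let f := Fintype.equivFin {a // ¬ p (lam a)}
  refine ⟨_, _, Q.submatrix id (fun a => (e.symm a : Fin N)), Q.submatrix id (fun a => (f.symm a : Fin N)),
    fun a => lam (e.symm a), fun a => lam (f.symm a), ?_, ?_, ?_, ?_, fun a => (e.symm a).2,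
    fun a => (f.symm a).2, ?_, ?_, ?_⟩
  · ext a b
    have := congr_fun (congr_fun hQ1 (e.symm a)) (e.symm b)
    simp only [Matrix.mul_apply, conjTranspose_apply, submatrix_apply, id, one_apply] at this ⊢
    rw [this]
    simp [Subtype.ext_iff.symm]
  · ext a b
    have := congr_fun (congr_fun hQ1 (f.symm a)) (f.symm b)
    simp only [Matrix.mul_apply, conjTranspose_apply, submatrix_apply, id, one_apply] at this ⊢
    rw [this]
    simp [Subtype.ext_iff.symm]
  · ext a b
    have := congr_fun (congr_fun hQ1 (e.symm a)) (f.symm b)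
    simp only [Matrix.mul_apply, conjTranspose_apply, submatrix_apply, id, one_apply,
      Matrix.zero_apply] at this ⊢
    rw [this, if_neg]
    intro h
    exact (f.symm b).2 (h ▸ (e.symm a).2)
  · ext x y
    have := congr_fun (congr_fun hQ2 x) y
    simp only [Matrix.mul_apply, conjTranspose_apply, submatrix_apply, id, one_apply,
      Matrix.add_apply] at this ⊢
    rw [← this, ← Fintype.sum_subtype_add_sum_subtype (fun a => p (lam a))]
    congr 1
    · exact Fintype.sum_equiv e.symm _ _ (fun a => rfl)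
    · exact Fintype.sum_equiv f.symm _ _ (fun a => rfl)
  · ext x a
    have := congr_fun (congr_fun hTQ x) (e.symm a)
    rw [mul_diagonal] at this ⊢
    simpa only [Matrix.mul_apply, submatrix_apply, id] using this
  · ext x a
    have := congr_fun (congr_fun hTQ x) (f.symm a)
    rw [mul_diagonal] at this ⊢
    simpa only [Matrix.mul_apply, submatrix_apply, id] using this
  · have h1 := Fintype.card_subtype_compl (fun a : Fin N => p (lam a))
    have h2 := Fintype.card_subtype_le (fun a : Fin N => p (lam a))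
    rw [Fintype.card_fin] at h1 h2
    omega

/-- an isometry has an orthogonal complement -/
theorem compl_isometry {n N : ℕ} {W : Matrix (Fin N) (Fin n) ℂ} (hW : Wᴴ * W = 1) :
    ∃ (r : ℕ) (V : Matrix (Fin N) (Fin r) ℂ), Vᴴ * V = 1 ∧ Wᴴ * V = 0 ∧ W * Wᴴ + V * Vᴴ = 1 ∧
      n + r = N := by
  classical
  have hT : (1 - W * Wᴴ).IsHermitian := by
    unfold Matrix.IsHermitian
    simp
  have hTT : (1 - W * Wᴴ) * (1 - W * Wᴴ) = 1 - W * Wᴴ := by
    have : W * Wᴴ * (W * Wᴴ) = W * Wᴴ := by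
      calc W * Wᴴ * (W * Wᴴ) = W * (Wᴴ * W) * Wᴴ := by simp only [Matrix.mul_assoc]
        _ = _ := by rw [hW, Matrix.mul_one]
    rw [Matrix.sub_mul, Matrix.mul_sub, Matrix.mul_sub, this]
    simp
  obtain ⟨r, s, V, V', μ, ν, hV, hV', hVV', hsum, hμ, hν, hTV, hTV', hrs⟩ := split hT (fun x => x ≠ 0)
  have hν0 : ∀ a, ν a = 0 := fun a => by
    have := hν a
    simpa using this
  -- `T V = V`
  have hTV1 : (1 - W * Wᴴ) * V = V := by
    -- from `T T V = T V`
    have h2 : V * diagonal (fun a => (μ a : ℂ)) * diagonal (fun a => (μ a : ℂ)) =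
        V * diagonal (fun a => (μ a : ℂ)) := by
      rw [← hTV, Matrix.mul_assoc, ← hTV, ← Matrix.mul_assoc, hTT]
    have h3 : diagonal (fun a => (μ a : ℂ)) * diagonal (fun a => (μ a : ℂ)) =
        diagonal (fun a => (μ a : ℂ)) := by
      have := congr_arg (fun M => Vᴴ * M) h2
      simp only [← Matrix.mul_assoc, hV, Matrix.one_mul] at this
      exact this
    have h4 : ∀ a, (μ a : ℂ) = 1 := by
      intro a
      have := congr_fun (congr_fun h3 a) a
      rw [diagonal_mul_diagonal, diagonal_apply_eq, diagonal_apply_eq] at this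
      have h0 : (μ a : ℂ) ≠ 0 := by exact_mod_cast hμ a
      exact mul_left_cancel₀ h0 (by rw [this, mul_one])
    rw [hTV]
    have : diagonal (fun a => (μ a : ℂ)) = 1 := by
      rw [show (fun a => (μ a : ℂ)) = fun _ => 1 from funext h4]
      simp
    rw [this, Matrix.mul_one]
  have hTV0 : (1 - W * Wᴴ) * V' = 0 := by
    rw [hTV']
    have : diagonal (fun a => (ν a : ℂ)) = 0 := by
      rw [show (fun a => (ν a : ℂ)) = fun _ => 0 from funext fun a => by rw [hν0 a]; simp]
      simp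
    rw [this, Matrix.mul_zero]
  have hT2 : (1 - W * Wᴴ) = V * Vᴴ := by
    calc (1 - W * Wᴴ) = (1 - W * Wᴴ) * (V * Vᴴ + V' * V'ᴴ) := by rw [hsum, Matrix.mul_one]
      _ = ((1 - W * Wᴴ) * V) * Vᴴ + ((1 - W * Wᴴ) * V') * V'ᴴ := by
        rw [Matrix.mul_add, ← Matrix.mul_assoc, ← Matrix.mul_assoc]
      _ = V * Vᴴ := by rw [hTV1, hTV0, Matrix.zero_mul, add_zero]
  have hWV : Wᴴ * V = 0 := by
    have : Wᴴ * ((1 - W * Wᴴ) * V) = 0 := by
      rw [← Matrix.mul_assoc, Matrix.mul_sub, ← Matrix.mul_assoc Wᴴ W, hW]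
      simp
    rwa [hTV1] at this
  refine ⟨r, V, hV, hWV, by rw [← hT2]; abel, ?_⟩
  have t1 : (W * Wᴴ + V * Vᴴ).trace = (N : ℂ) := by
    rw [← hT2, add_sub_cancel, trace_one, Fintype.card_fin]
  rw [trace_add, trace_mul_comm, trace_mul_comm V, hW, hV, trace_one, trace_one, Fintype.card_fin,
    Fintype.card_fin] at t1
  exact_mod_cast t1

/-- a non-scalar Hermitian matrix splits the space into two proper parts which reduce everything
commuting with it -/
theorem split_nonscalar {N : ℕ} (hN : 0 < N) {T : Matrix (Fin N) (Fin N) ℂ} (hT : T.IsHermitian)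
    (hns : ∀ c : ℝ, T ≠ (c : ℂ) • 1) :
    ∃ (r s : ℕ) (V : Matrix (Fin N) (Fin r) ℂ) (W : Matrix (Fin N) (Fin s) ℂ),
      Vᴴ * V = 1 ∧ Wᴴ * W = 1 ∧ Vᴴ * W = 0 ∧ V * Vᴴ + W * Wᴴ = 1 ∧ r < N ∧ s < N ∧ 0 < r ∧ 0 < s ∧
      ∀ A : Matrix (Fin N) (Fin N) ℂ, T * A = A * T → Vᴴ * A * W = 0 ∧ Wᴴ * A * V = 0 := by
  classical
  obtain ⟨r, s, V, W, μ, ν, hV, hW, hVW, hsum, hμ, hν, hTV, hTW, hrs⟩ :=
    split hT (fun x => x = hT.eigenvalues ⟨0, hN⟩)
  have hVT : Vᴴ * T = diagonal (fun a => (μ a : ℂ)) * Vᴴ := by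
    have := congr_arg conjTranspose hTV
    rw [conjTranspose_mul, conjTranspose_mul, hT.eq, diagonal_conjTranspose] at this
    rw [this]
    congr 2
    funext a
    simp
  have hWT : Wᴴ * T = diagonal (fun a => (ν a : ℂ)) * Wᴴ := by
    have := congr_arg conjTranspose hTW
    rw [conjTranspose_mul, conjTranspose_mul, hT.eq, diagonal_conjTranspose] at this
    rw [this]
    congr 2
    funext a
    simp
  have hs : 0 < s := by
    rcases Nat.eq_zero_or_pos s with h0 | h0
    · exfalso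
      subst h0
      have hW0 : W * Wᴴ = 0 := by
        ext a b
        simp [Matrix.mul_apply]
      rw [hW0, add_zero] at hsum
      apply hns (hT.eigenvalues ⟨0, hN⟩)
      calc T = T * (V * Vᴴ) := by rw [hsum, Matrix.mul_one]
        _ = V * diagonal (fun a => (μ a : ℂ)) * Vᴴ := by rw [← Matrix.mul_assoc, hTV]
        _ = ((hT.eigenvalues ⟨0, hN⟩ : ℝ) : ℂ) • (V * Vᴴ) := by
          have : diagonal (fun a => (μ a : ℂ)) = ((hT.eigenvalues ⟨0, hN⟩ : ℝ) : ℂ) • 1 := by
            rw [smul_one_eq_diagonal]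
            congr 1
            funext a
            rw [hμ a]
          rw [this]
          simp
        _ = _ := by rw [hsum]
    · exact h0
  have hr : 0 < r := by
    rcases Nat.eq_zero_or_pos r with h0 | h0
    · exfalso
      subst h0
      have hV0 : V * Vᴴ = 0 := by
        ext a b
        simp [Matrix.mul_apply]
      rw [hV0, zero_add] at hsum
      -- eigenvector
      set v := hT.eigenvectorBasis ⟨0, hN⟩ with hv
      have hv1 : T *ᵥ ⇑v = hT.eigenvalues ⟨0, hN⟩ • ⇑v := hT.mulVec_eigenvectorBasis ⟨0, hN⟩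
      have hv2 : ∀ a, (ν a : ℂ) * (Wᴴ *ᵥ ⇑v) a = ((hT.eigenvalues ⟨0, hN⟩ : ℝ) : ℂ) * (Wᴴ *ᵥ ⇑v) a := by
        intro a
        have h1 : Wᴴ *ᵥ (T *ᵥ ⇑v) = diagonal (fun a => (ν a : ℂ)) *ᵥ (Wᴴ *ᵥ ⇑v) := by
          rw [mulVec_mulVec, hWT, mulVec_mulVec]
        rw [hv1, mulVec_smul] at h1
        have h2 := congr_fun h1 a
        rw [mulVec_diagonal] at h2
        rw [← h2]
        simp
      have hv3 : Wᴴ *ᵥ ⇑v = 0 := by
        funext a
        have h1 := hv2 a
        by_contra hne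
        have h2 := mul_right_cancel₀ hne h1
        exact hν a (by exact_mod_cast h2)
      have hv4 : (⇑v : Fin N → ℂ) = 0 := by
        calc (⇑v : Fin N → ℂ) = (W * Wᴴ) *ᵥ ⇑v := by rw [hsum, one_mulVec]
          _ = W *ᵥ (Wᴴ *ᵥ ⇑v) := by rw [mulVec_mulVec]
          _ = 0 := by rw [hv3, mulVec_zero]
      have hv5 : v = 0 := by
        ext i
        exact congr_fun hv4 i
      have hv6 : ‖v‖ = 1 := by
        rw [hv]
        exact hT.eigenvectorBasis.norm_eq_one _
      rw [hv5] at hv6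
      simp at hv6
    · exact h0
  refine ⟨r, s, V, W, hV, hW, hVW, hsum, by omega, by omega, hr, hs, fun A hA => ⟨?_, ?_⟩⟩
  · have h1 : diagonal (fun a => (μ a : ℂ)) * (Vᴴ * A * W) =
        (Vᴴ * A * W) * diagonal (fun a => (ν a : ℂ)) := by
      calc diagonal (fun a => (μ a : ℂ)) * (Vᴴ * A * W)
          = (diagonal (fun a => (μ a : ℂ)) * Vᴴ) * A * W := by simp only [Matrix.mul_assoc]
        _ = Vᴴ * (T * A) * W := by rw [← hVT]; simp only [Matrix.mul_assoc]
        _ = Vᴴ * A * (T * W) := by rw [hA]; simp only [Matrix.mul_assoc]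
        _ = _ := by rw [hTW]; simp only [Matrix.mul_assoc]
    ext a b
    have h2 := congr_fun (congr_fun h1 a) b
    rw [diagonal_mul, mul_diagonal] at h2
    rw [Matrix.zero_apply]
    by_contra hne
    have h3 : (μ a : ℂ) = ν b := mul_right_cancel₀ hne (by rw [h2, mul_comm])
    have h4 : μ a = ν b := by exact_mod_cast h3
    exact hν b (by rw [← h4]; exact hμ a)
  · have h1 : diagonal (fun a => (ν a : ℂ)) * (Wᴴ * A * V) =
        (Wᴴ * A * V) * diagonal (fun a => (μ a : ℂ)) := by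
      calc diagonal (fun a => (ν a : ℂ)) * (Wᴴ * A * V)
          = (diagonal (fun a => (ν a : ℂ)) * Wᴴ) * A * V := by simp only [Matrix.mul_assoc]
        _ = Wᴴ * (T * A) * V := by rw [← hWT]; simp only [Matrix.mul_assoc]
        _ = Wᴴ * A * (T * V) := by rw [hA]; simp only [Matrix.mul_assoc]
        _ = _ := by rw [hTV]; simp only [Matrix.mul_assoc]
    ext a b
    have h2 := congr_fun (congr_fun h1 a) b
    rw [diagonal_mul, mul_diagonal] at h2
    rw [Matrix.zero_apply]
    by_contra hne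
    have h3 : (ν a : ℂ) = μ b := mul_right_cancel₀ hne (by rw [h2, mul_comm])
    have h4 : ν a = μ b := by exact_mod_cast h3
    exact hν a (by rw [h4]; exact hμ b)

end Pool.Agent.R279.PJ
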