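import Pool.Agent.R279.PJ.Top

namespace Pool.Agent.R279.PJ

open Matrix
open scoped ComplexOrder Kronecker

section
variable {α β γ : Type} [Fintype α] [DecidableEq α] [Fintype β] [DecidableEq β] [Fintype γ]
  [DecidableEq γ]

theorem psd_diag {A : Matrix α α ℂ} {B : Matrix β β ℂ} (hA : A.PosSemidef) (hB : B.PosSemidef) :
    (fromBlocks A 0 0 B).PosSemidef := by
  have h1 := hA.conjTranspose_mul_mul_same (fromCols (1 : Matrix α α ℂ) (0 : Matrix α β ℂ))
  have h2 := hB.conjTranspose_mul_mul_same (fromCols (0 : Matrix β α ℂ) (1 : Matrix β β ℂ))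
  convert h1.add h2 using 1
  ext (a | a) (b | b) <;>
  simp [conjTranspose_fromCols_eq_fromRows_conjTranspose, Matrix.mul_fromCols, fromRows_mul]

/-- Schur complement, one direction -/
theorem schur_to {D : Matrix α α ℂ} (h : (1 - D * Dᴴ).PosSemidef) :
    (fromBlocks 1 D Dᴴ 1).PosSemidef := by
  have h1 := posSemidef_self_mul_conjTranspose (fromRows D (1 : Matrix α α ℂ))
  have h2 := psd_diag h (PosSemidef.zero : (0 : Matrix α α ℂ).PosSemidef)
  rw [conjTranspose_fromRows_eq_fromCols_conjTranspose, fromRows_mul_fromCols] at h1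
  convert h1.add h2 using 1
  rw [fromBlocks_add]
  simp

/-- Schur complement, the other direction -/
theorem schur_of {D : Matrix α α ℂ} (h : (fromBlocks 1 D Dᴴ 1).PosSemidef) :
    (1 - D * Dᴴ).PosSemidef := by
  have h1 := h.conjTranspose_mul_mul_same (fromRows (1 : Matrix α α ℂ) (-Dᴴ))
  convert h1 using 1
  rw [Matrix.mul_assoc, fromBlocks_mul_fromRows, conjTranspose_fromRows_eq_fromCols_conjTranspose,
    fromCols_mul_fromRows]
  simp [sub_eq_add_neg]

omit [DecidableEq α] [DecidableEq β] in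
theorem tr_conj {Q : Matrix α β ℂ} [DecidableEq α] (hQ : Q * Qᴴ = 1) (M : Matrix α α ℂ) :
    (Qᴴ * M * Q).trace = M.trace := by
  rw [trace_mul_comm, ← Matrix.mul_assoc, hQ, Matrix.one_mul]

omit [DecidableEq α] [DecidableEq β] in
theorem tr_conj2 {Q : Matrix α β ℂ} [DecidableEq α] (hQ : Q * Qᴴ = 1) (M : Matrix α α ℂ) :
    (Qᴴ * M * Q * (Qᴴ * M * Q)).trace = (M * M).trace := by
  have : Qᴴ * M * Q * (Qᴴ * M * Q) = Qᴴ * (M * M) * Q := by
    calc Qᴴ * M * Q * (Qᴴ * M * Q) = Qᴴ * M * (Q * Qᴴ) * M * Q := by simp only [Matrix.mul_assoc]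
      _ = _ := by rw [hQ, Matrix.mul_one]; simp only [Matrix.mul_assoc]
  rw [this, tr_conj hQ]

omit [DecidableEq α] [DecidableEq β] in
theorem tr_blocks (A : Matrix α α ℂ) (B : Matrix α β ℂ) (C : Matrix β α ℂ) (D : Matrix β β ℂ) :
    (fromBlocks A B C D).trace = A.trace + D.trace := by
  simp [Matrix.trace, Fintype.sum_sum_type]

end

theorem no_equiv {n r : ℕ} {X : Tup 4 n} {v : Fin 4 → Matrix (Fin n) (Fin 1) ℂ}
    {P : Matrix (Fin n ⊕ Fin 1) (Fin (n + 1)) ℂ} (hP : P * Pᴴ = 1) {Z : Tup 4 r}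
    (h : UnitarilyEquiv (dsum X Z) (comp P (fun j => fromBlocks (X j) (v j) (v j)ᴴ 0))) :
    ∀ j, v j = 0 := by
  obtain ⟨Q, hQ, hQ', hY⟩ := h
  have hr : r = 1 := by
    have h1 : (Q * Qᴴ).trace = (Qᴴ * Q).trace := trace_mul_comm _ _
    rw [hQ, hQ', trace_one, trace_one] at h1
    simp only [Fintype.card_sum, Fintype.card_fin] at h1
    have h2 : n + r = n + 1 := by exact_mod_cast h1
    omega
  subst hr
  intro j
  have h1 := hY j
  simp only [comp] at h1
  have t1 := congr_arg trace h1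
  rw [tr_conj hP, tr_conj hQ, dsum, tr_blocks, tr_blocks, trace_zero, add_zero] at t1
  have hZ : Z j = 0 := by
    have hz : (Z j).trace = 0 := by
      have := t1
      linear_combination -this
    ext a b
    have ha : a = 0 := Subsingleton.elim _ _
    have hb : b = 0 := Subsingleton.elim _ _
    subst ha hb
    simpa [Matrix.trace] using hz
  have t2 := congr_arg (fun M => (M * M).trace) h1
  rw [tr_conj2 hP, tr_conj2 hQ, dsum, hZ, fromBlocks_multiply, fromBlocks_multiply, tr_blocks,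
    tr_blocks] at t2
  simp only [Matrix.mul_zero, add_zero, trace_add, trace_zero] at t2
  have e : (v j * (v j)ᴴ).trace = ((v j)ᴴ * v j).trace := trace_mul_comm _ _
  rw [e] at t2
  have h3 : ((v j)ᴴ * v j).trace = 0 := by linear_combination (1 / 2 : ℂ) * t2
  exact trace_conjTranspose_mul_self_eq_zero_iff.mp h3

theorem exists_kernel {n : ℕ} (hn : 0 < n) (x y : Matrix (Fin n) (Fin n) ℂ) :
    ∃ c d : Matrix (Fin n) (Fin 1) ℂ, x * c + y * d = 0 ∧ cᴴ * c + dᴴ * d = 1 := by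
  -- a nonzero kernel vector
  have hker : LinearMap.ker (Matrix.mulVecLin (fromCols x y)) ≠ ⊥ := by
    apply LinearMap.ker_ne_bot_of_finrank_lt
    rw [Module.finrank_fintype_fun_eq_card, Module.finrank_fintype_fun_eq_card]
    simp only [Fintype.card_sum, Fintype.card_fin]
    omega
  obtain ⟨u, hu, hu0⟩ := (Submodule.ne_bot_iff _).mp hker
  rw [LinearMap.mem_ker, Matrix.mulVecLin_apply] at hu
  set s : ℝ := ∑ i, ‖u i‖ ^ 2 with hs
  have hspos : 0 < s := by
    obtain ⟨i, hi⟩ := Function.ne_iff.mp hu0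
    have h1 : ‖u i‖ ^ 2 ≤ s := Finset.single_le_sum (f := fun i => ‖u i‖ ^ 2)
      (fun i _ => sq_nonneg _) (Finset.mem_univ i)
    have h2 : 0 < ‖u i‖ := norm_pos_iff.mpr hi
    nlinarith
  set t : ℝ := (√s)⁻¹ with ht
  have htt : t * t * s = 1 := by
    rw [ht]
    have := Real.mul_self_sqrt hspos.le
    have h2 : √s ≠ 0 := (Real.sqrt_pos.mpr hspos).ne'
    field_simp
    rw [sq, this]
  refine ⟨Matrix.of fun a _ => (t : ℂ) * u (Sum.inl a), Matrix.of fun a _ => (t : ℂ) * u (Sum.inr a),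
    ?_, ?_⟩
  · ext a b
    have h1 := congr_fun hu a
    simp only [mulVec, dotProduct, Fintype.sum_sum_type, fromCols_apply_inl, fromCols_apply_inr,
      Pi.zero_apply] at h1
    simp only [Matrix.add_apply, Matrix.mul_apply, of_apply, Matrix.zero_apply]
    calc _ = (t : ℂ) * (∑ i, x a i * u (Sum.inl i) + ∑ i, y a i * u (Sum.inr i)) := by
          rw [mul_add, Finset.mul_sum, Finset.mul_sum]
          congr 1 <;> exact Finset.sum_congr rfl fun i _ => by ring
      _ = 0 := by rw [h1, mul_zero]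
  · ext a b
    have ha : a = 0 := Subsingleton.elim _ _
    have hb : b = 0 := Subsingleton.elim _ _
    subst ha hb
    simp only [Matrix.add_apply, Matrix.mul_apply, conjTranspose_apply, of_apply, one_apply_eq]
    have key : ∀ z : ℂ, star ((t : ℂ) * z) * ((t : ℂ) * z) = ((t * t * ‖z‖ ^ 2 : ℝ) : ℂ) := by
      intro z
      rw [star_mul', Complex.star_def, Complex.conj_ofReal]
      have : (starRingEnd ℂ) z * z = ((‖z‖ ^ 2 : ℝ) : ℂ) := by
        rw [Complex.conj_mul']
        push_cast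
        rfl
      calc _ = (t : ℂ) * t * ((starRingEnd ℂ) z * z) := by ring
        _ = _ := by rw [this]; push_cast; ring
    simp only [key]
    rw [← Complex.ofReal_sum, ← Complex.ofReal_sum, ← Complex.ofReal_add, ← Finset.mul_sum,
      ← Finset.mul_sum, ← mul_add, ← Fintype.sum_sum_type (fun i => ‖u i‖ ^ 2), ← hs, htt]
    simp

theorem four_le_eight : 4 ≤ 8 := by norm_num

theorem proj_mono {K K' : FreeSet 8} {n : ℕ} (h : K n ⊆ K' n) :
    proj four_le_eight K n ⊆ proj four_le_eight K' n := by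
  rintro X ⟨Y, hY, hX⟩
  exact ⟨Y, h hY, hX⟩

theorem no_free {w : ℂ} (hw : IU w) {K : FreeSet 8} (hK : ∀ n, KK w n ⊆ K n) {n : ℕ} (hn : 0 < n)
    {X : Tup 4 n} (hX : X ∈ proj four_le_eight (KK w) n) :
    ¬ FreeExtreme (proj four_le_eight K) n X := by
  obtain ⟨Xt, ⟨hXh, hXW⟩, hXX⟩ := hX
  have hX0 : ∀ j, (X j).IsHermitian := fun j => by rw [hXX j]; exact hXh _
  -- the row inequality
  have hrow : (1 - ((X 0 + w • X 1) * (X 0 + w • X 1)ᴴ + (X 2 + w • X 3) * (X 2 + w • X 3)ᴴ)).PosSemidef := by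
    unfold Wt at hXW
    rw [dbl_one] at hXW
    have h1 := (schur_of hXW).submatrix (Sum.inl : Fin n → Fin n ⊕ Fin n)
    convert h1 using 1
    have e0 : X 0 = Xt 0 := hXX 0
    have e1 : X 1 = Xt 1 := hXX 1
    have e2 : X 2 = Xt 2 := hXX 2
    have e3 : X 3 = Xt 3 := hXX 3
    rw [e0, e1, e2, e3, blk, fromBlocks_conjTranspose, fromBlocks_multiply, ← fromBlocks_one,
      sub_eq_add_neg (fromBlocks _ _ _ _), fromBlocks_neg, fromBlocks_add]
    ext a b
    simp [sub_eq_add_neg]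
  obtain ⟨c, d, hcd, hunit⟩ := exists_kernel hn (X 0 + w • X 1) (X 2 + w • X 3)
  set v : Fin 4 → Matrix (Fin n) (Fin 1) ℂ := ![(2⁻¹ : ℂ) • c, (w / 2) • c, (2⁻¹ : ℂ) • d, (w / 2) • d]
    with hv
  set Y4 : Fin 4 → Matrix (Fin n ⊕ Fin 1) (Fin n ⊕ Fin 1) ℂ :=
    fun j => fromBlocks (X j) (v j) (v j)ᴴ 0 with hY4
  set Y8 : Fin 8 → Matrix (Fin n ⊕ Fin 1) (Fin n ⊕ Fin 1) ℂ :=
    ![Y4 0, Y4 1, Y4 2, Y4 3, 0, 0, 0, 0] with hY8
  have hY4h : ∀ j, (Y4 j).IsHermitian := by
    intro j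
    unfold Matrix.IsHermitian
    rw [hY4]
    dsimp only
    rw [fromBlocks_conjTranspose, (hX0 j).eq, conjTranspose_conjTranspose, conjTranspose_zero]
  have hY8h : ∀ j, (Y8 j).IsHermitian := by
    intro j
    fin_cases j
    exacts [hY4h 0, hY4h 1, hY4h 2, hY4h 3, isHermitian_zero, isHermitian_zero, isHermitian_zero,
      isHermitian_zero]
  have hww : w * (w / 2) = -2⁻¹ := by
    have := hw.mul_self
    linear_combination (1 / 2 : ℂ) * this
  have hws : w * star (w / 2) = 2⁻¹ := by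
    have h1 : star (w / 2) = -(w / 2) := by
      rw [star_div₀, hw.star]
      simp [neg_div]
    rw [h1, mul_neg, hww, neg_neg]
  have y0 : Y4 0 + w • Y4 1 = fromBlocks (X 0 + w • X 1) 0 cᴴ 0 := by
    have a0 : Y4 0 = fromBlocks (X 0) ((2⁻¹ : ℂ) • c) ((2⁻¹ : ℂ) • c)ᴴ 0 := rfl
    have a1 : Y4 1 = fromBlocks (X 1) ((w / 2) • c) ((w / 2) • c)ᴴ 0 := rfl
    rw [a0, a1, fromBlocks_smul, fromBlocks_add, smul_smul, hww, ← add_smul, conjTranspose_smul,
      conjTranspose_smul, smul_smul, hws, ← add_smul]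
    have : star (2⁻¹ : ℂ) = 2⁻¹ := by simp
    rw [this]
    norm_num
  have y1 : Y4 2 + w • Y4 3 = fromBlocks (X 2 + w • X 3) 0 dᴴ 0 := by
    have a0 : Y4 2 = fromBlocks (X 2) ((2⁻¹ : ℂ) • d) ((2⁻¹ : ℂ) • d)ᴴ 0 := rfl
    have a1 : Y4 3 = fromBlocks (X 3) ((w / 2) • d) ((w / 2) • d)ᴴ 0 := rfl
    rw [a0, a1, fromBlocks_smul, fromBlocks_add, smul_smul, hww, ← add_smul, conjTranspose_smul,
      conjTranspose_smul, smul_smul, hws, ← add_smul]
    have : star (2⁻¹ : ℂ) = 2⁻¹ := by simp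
    rw [this]
    norm_num
  have hblk : blk w Y8 = fromBlocks (fromBlocks (X 0 + w • X 1) 0 cᴴ 0)
      (fromBlocks (X 2 + w • X 3) 0 dᴴ 0) 0 0 := by
    rw [← y0, ← y1]
    have a : blk w Y8 = fromBlocks (Y4 0 + w • Y4 1) (Y4 2 + w • Y4 3) (0 + w • 0) (0 + w • 0) := rfl
    rw [a]
    simp
  have hcd' : cᴴ * (X 0 + w • X 1)ᴴ + dᴴ * (X 2 + w • X 3)ᴴ = 0 := by
    have := congr_arg conjTranspose hcd
    rwa [conjTranspose_add, conjTranspose_mul, conjTranspose_mul, conjTranspose_zero] at this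
  have hWt8 : Wt w 1 Y8 := by
    unfold Wt
    rw [dbl_one]
    apply schur_to
    have hprod : blk w Y8 * (blk w Y8)ᴴ = fromBlocks (fromBlocks ((X 0 + w • X 1) * (X 0 + w • X 1)ᴴ +
        (X 2 + w • X 3) * (X 2 + w • X 3)ᴴ) 0 0 1) 0 0 0 := by
      rw [hblk, fromBlocks_conjTranspose, fromBlocks_multiply, fromBlocks_conjTranspose,
        fromBlocks_conjTranspose, fromBlocks_multiply, fromBlocks_multiply, fromBlocks_add]
      simp only [conjTranspose_zero, conjTranspose_conjTranspose, Matrix.mul_zero, Matrix.zero_mul,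
        add_zero, hcd, hcd', hunit]
    rw [hprod]
    have e : (1 : Matrix ((Fin n ⊕ Fin 1) ⊕ (Fin n ⊕ Fin 1)) ((Fin n ⊕ Fin 1) ⊕ (Fin n ⊕ Fin 1)) ℂ) -
        fromBlocks (fromBlocks ((X 0 + w • X 1) * (X 0 + w • X 1)ᴴ +
        (X 2 + w • X 3) * (X 2 + w • X 3)ᴴ) 0 0 1) 0 0 0 = fromBlocks (fromBlocks (1 -
        ((X 0 + w • X 1) * (X 0 + w • X 1)ᴴ + (X 2 + w • X 3) * (X 2 + w • X 3)ᴴ)) 0 0 0) 0 0 1 := by
      rw [sub_eq_iff_eq_add, fromBlocks_add, fromBlocks_add]
      simp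
    rw [e]
    exact psd_diag (psd_diag hrow PosSemidef.zero) PosSemidef.one
  -- reindexing
  set P : Matrix (Fin n ⊕ Fin 1) (Fin (n + 1)) ℂ :=
    (1 : Matrix (Fin n ⊕ Fin 1) (Fin n ⊕ Fin 1) ℂ).submatrix id finSumFinEquiv.symm with hP
  have hPP : P * Pᴴ = 1 := by
    rw [hP, conjTranspose_submatrix, submatrix_mul_equiv]
    simp
  have hPP' : Pᴴ * P = 1 := by
    rw [hP, conjTranspose_submatrix, ← submatrix_mul _ _ _ id _ Function.bijective_id]
    simp
  have hmem8 : comp P Y8 ∈ KK w (n + 1) := by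
    refine ⟨comp_herm hY8h P, ?_⟩
    have := hWt8.comp P
    rwa [Matrix.mul_one, hPP'] at this
  have hmem4 : comp P Y4 ∈ proj four_le_eight K (n + 1) := by
    refine ⟨comp P Y8, hK _ hmem8, fun j => ?_⟩
    fin_cases j <;> rfl
  -- the combination
  set V : Matrix (Fin n ⊕ Fin 1) (Fin n) ℂ := fromRows 1 0 with hV
  have hVV : Vᴴ * V = 1 := by
    rw [hV, conjTranspose_fromRows_eq_fromCols_conjTranspose, fromCols_mul_fromRows]
    simp
  have hVY : ∀ j, Vᴴ * Y4 j * V = X j := by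
    intro j
    rw [hV, hY4, conjTranspose_fromRows_eq_fromCols_conjTranspose]
    dsimp only
    rw [fromCols_mul_fromBlocks, fromCols_mul_fromRows]
    simp
  rintro ⟨-, hfree⟩
  have hf := hfree 1 (fun _ => n + 1) (fun _ => comp P Y4) (fun _ => Pᴴ * V) (fun _ => hmem4)
    ⟨fun _ => Nat.succ_pos n, by
      rw [Fin.sum_univ_one, conjTranspose_mul, conjTranspose_conjTranspose, Matrix.mul_assoc,
        ← Matrix.mul_assoc P, hPP, Matrix.one_mul, hVV], fun j => by
      rw [Fin.sum_univ_one, conjTranspose_mul, conjTranspose_conjTranspose]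
      simp only [comp]
      calc X j = Vᴴ * Y4 j * V := (hVY j).symm
        _ = Vᴴ * (P * Pᴴ) * Y4 j * (P * Pᴴ) * V := by rw [hPP, Matrix.mul_one, Matrix.mul_one]
        _ = _ := by simp only [Matrix.mul_assoc]⟩
    (fun _ h0 => by
      have h1 : (Pᴴ * V)ᴴ * (Pᴴ * V) = 1 := by
        rw [conjTranspose_mul, conjTranspose_conjTranspose, Matrix.mul_assoc,
          ← Matrix.mul_assoc P, hPP, Matrix.one_mul, hVV]
      rw [h0, Matrix.mul_zero] at h1
      have := congr_fun (congr_fun h1 ⟨0, hn⟩) ⟨0, hn⟩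
      simp at this) 0
  rcases hf with ⟨h1, -⟩ | ⟨-, r, Z, -, -, hequiv⟩
  · have h2 : n + 1 = n := h1
    omega
  · have hz := no_equiv hPP hequiv
    have z0 : (2⁻¹ : ℂ) • c = 0 := hz 0
    have z2 : (2⁻¹ : ℂ) • d = 0 := hz 2
    have hc0 : c = 0 := (smul_eq_zero.mp z0).resolve_left (by norm_num)
    have hd0 : d = 0 := (smul_eq_zero.mp z2).resolve_left (by norm_num)
    rw [hc0, hd0] at hunit
    have := congr_fun (congr_fun hunit 0) 0
    simp at this

theorem FE_KK_empty {w : ℂ} (hw : IU w) {n : ℕ} (hn : 0 < n) :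
    FE (proj four_le_eight (KK w)) n = ∅ := by
  rw [Set.eq_empty_iff_forall_notMem]
  intro X hX
  exact no_free hw (fun n => subset_rfl) hn hX.1 hX

theorem FE_LL_empty {n : ℕ} (hn : 0 < n) : FE (proj four_le_eight LL) n = ∅ := by
  rw [Set.eq_empty_iff_forall_notMem]
  intro X hX
  have hI : IU Complex.I := Or.inl rfl
  have hI' : IU (-Complex.I) := Or.inr rfl
  have key : X ∈ proj four_le_eight (KK Complex.I) n ∨ X ∈ proj four_le_eight (KK (-Complex.I)) n := by
    obtain ⟨⟨Xt, hXt, hXX⟩, hfree⟩ := hX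
    obtain ⟨S', S'', A', A'', hA', hA'', hS, hadd⟩ := LL_decomp hXt
    by_cases h' : S' = 0
    · right
      refine ⟨Xt, ?_, hXX⟩
      rw [h', conjTranspose_zero, Matrix.mul_zero, zero_add] at hS
      have : Xt = comp S'' A'' := by
        rw [hadd, h']
        funext j
        simp [comp]
      rw [this]
      exact comp_mem (KK_convex _) hn hn hA'' hS
    by_cases h'' : S'' = 0
    · left
      refine ⟨Xt, ?_, hXX⟩
      rw [h'', conjTranspose_zero, Matrix.mul_zero, add_zero] at hS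
      have : Xt = comp S' A' := by
        rw [hadd, h'']
        funext j
        simp [comp]
      rw [this]
      exact comp_mem (KK_convex _) hn hn hA' hS
    left
    have hf := hfree 2 (fun _ => n) ![fun j => A' (Fin.castLE four_le_eight j),
        fun j => A'' (Fin.castLE four_le_eight j)] ![S', S''] (by
          intro i
          fin_cases i
          · exact ⟨A', KK_sub_LL hI hA', fun j => rfl⟩
          · exact ⟨A'', KK_sub_LL hI' hA'', fun j => rfl⟩) ⟨fun _ => hn, by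
            rw [Fin.sum_univ_two]
            exact hS, fun j => by
            rw [Fin.sum_univ_two, hXX j, hadd]
            rfl⟩ (by
            intro i
            fin_cases i
            · exact h'
            · exact h'') 0
    rcases hf with ⟨-, hequiv⟩ | ⟨hlt, -⟩
    · obtain ⟨Q, hQ, hQ', hAX⟩ := hequiv
      refine ⟨comp Qᴴ A', comp_mem (KK_convex _) hn hn hA' (by
        rw [conjTranspose_conjTranspose]
        exact hQ), fun j => ?_⟩
      have h1 : A' (Fin.castLE four_le_eight j) = Qᴴ * X j * Q := hAX j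
      simp only [comp]
      rw [h1, conjTranspose_conjTranspose]
      calc X j = (Q * Qᴴ) * X j * (Q * Qᴴ) := by rw [hQ, Matrix.one_mul, Matrix.mul_one]
        _ = _ := by simp only [Matrix.mul_assoc]
    · exact absurd hlt (lt_irrefl _)
  rcases key with h | h
  · exact no_free hI (fun n => KK_sub_LL hI) hn h hX
  · exact no_free hI' (fun n => KK_sub_LL hI') hn h hX

theorem zero_mem_KK (w : ℂ) (n : ℕ) : (0 : Tup 8 n) ∈ KK w n :=
  ⟨fun _ => isHermitian_zero, Wt_zero PosSemidef.one⟩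

theorem mconv_empty {g : ℕ} {S : FreeSet g} (h : ∀ n, 0 < n → S n = ∅) {n : ℕ} (hn : 0 < n) :
    mconv S n = ∅ := by
  rw [Set.eq_empty_iff_forall_notMem]
  rintro X ⟨k, m, Y, V, hY, hm, hV, -⟩
  rcases Nat.eq_zero_or_pos k with h0 | h0
  · subst h0
    rw [Fin.sum_univ_zero] at hV
    have := congr_fun (congr_fun hV ⟨0, hn⟩) ⟨0, hn⟩
    simp at this
  · have := hY ⟨0, h0⟩
    rw [h _ (hm _)] at this
    exact this

end Pool.Agent.R279.PJ
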