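import Pool.Agent.R279.PJ.Pr

namespace Pool.Agent.R279.PJ

open Matrix
open scoped ComplexOrder Kronecker

/-- identification of four copies -/
def g4 (α : Type) : (α ⊕ α) ⊕ (α ⊕ α) → Fin 4 × α :=
  Sum.elim (Sum.elim (fun a => (0, a)) (fun a => (1, a)))
    (Sum.elim (fun a => (2, a)) (fun a => (3, a)))

theorem g4_bij (α : Type) : Function.Bijective (g4 α) := by
  constructor
  · rintro ((a | a) | (a | a)) ((b | b) | (b | b)) h <;> simp_all [g4]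
  · rintro ⟨i, a⟩
    fin_cases i
    exacts [⟨Sum.inl (Sum.inl a), rfl⟩, ⟨Sum.inl (Sum.inr a), rfl⟩, ⟨Sum.inr (Sum.inl a), rfl⟩,
      ⟨Sum.inr (Sum.inr a), rfl⟩]

/-- the coefficients of the free spectrahedron `KK I` -/
def AA : Fin 8 → Matrix (Fin 4) (Fin 4) ℂ :=
  ![!![0, 0, -1, 0; 0, 0, 0, 0; -1, 0, 0, 0; 0, 0, 0, 0],
    !![0, 0, -Complex.I, 0; 0, 0, 0, 0; Complex.I, 0, 0, 0; 0, 0, 0, 0],
    !![0, 0, 0, -1; 0, 0, 0, 0; 0, 0, 0, 0; -1, 0, 0, 0],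
    !![0, 0, 0, -Complex.I; 0, 0, 0, 0; 0, 0, 0, 0; Complex.I, 0, 0, 0],
    !![0, 0, 0, 0; 0, 0, -1, 0; 0, -1, 0, 0; 0, 0, 0, 0],
    !![0, 0, 0, 0; 0, 0, -Complex.I, 0; 0, Complex.I, 0, 0; 0, 0, 0, 0],
    !![0, 0, 0, 0; 0, 0, 0, -1; 0, 0, 0, 0; 0, -1, 0, 0],
    !![0, 0, 0, 0; 0, 0, 0, -Complex.I; 0, 0, 0, 0; 0, Complex.I, 0, 0]]

theorem AA_herm (j : Fin 8) : (AA j).IsHermitian := by
  fin_cases j <;>
  · ext a b
    fin_cases a <;> fin_cases b <;> simp [AA]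

theorem KK_eq_freeSpec : KK Complex.I = freeSpec AA := by
  funext n
  ext X
  refine and_congr_right fun hX => ?_
  unfold Wt
  rw [dbl_one, ← posSemidef_submatrix_equiv (Equiv.ofBijective _ (g4_bij (Fin n)))
    (M := 1 - ∑ j, AA j ⊗ₖ X j)]
  have h0 : ∀ j a b, star (X j b a) = X j a b := fun j a b => (hX j).apply a b
  have : (1 - ∑ j, AA j ⊗ₖ X j).submatrix (Equiv.ofBijective _ (g4_bij (Fin n)))
      (Equiv.ofBijective _ (g4_bij (Fin n))) =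
      fromBlocks 1 (blk Complex.I X) (blk Complex.I X)ᴴ 1 := by
    ext ((a | a) | (a | a)) ((b | b) | (b | b)) <;>
    simp [g4, AA, blk, Fin.sum_univ_eight, Matrix.sub_apply, Matrix.add_apply, kroneckerMap_apply,
      one_apply, h0, Prod.ext_iff] <;> (try rw [← Complex.star_def, ← Complex.star_def, h0, h0]) <;> ring
  rw [this]

end Pool.Agent.R279.PJ
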