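import Pool.Agent.R279.PJ.Fac

namespace Pool.Agent.R279.PJ

open Matrix
open scoped ComplexOrder Kronecker

section
variable {α β γ : Type} [Fintype α] [DecidableEq α] [Fintype β] [DecidableEq β] [Fintype γ]
  [DecidableEq γ]

omit [DecidableEq α] in
theorem isClosed_psd : IsClosed {M : Matrix α α ℂ | M.PosSemidef} := by
  have : {M : Matrix α α ℂ | M.PosSemidef} =
      {M | Mᴴ = M} ∩ ⋂ x : α → ℂ, {M | 0 ≤ star x ⬝ᵥ (M *ᵥ x)} := by
    ext M
    rw [Set.mem_inter_iff, Set.mem_iInter]
    exact posSemidef_iff_dotProduct_mulVec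
  rw [this]
  refine IsClosed.inter (isClosed_eq continuous_id.matrix_conjTranspose continuous_id)
    (isClosed_iInter fun x => ?_)
  exact isClosed_le continuous_const
    (continuous_const.dotProduct (continuous_id.matrix_mulVec continuous_const))

omit [Fintype α] [DecidableEq α] in
theorem continuous_blk (w : ℂ) : Continuous (blk w : (Fin 8 → Matrix α α ℂ) → _) := by
  unfold blk
  refine Continuous.matrix_fromBlocks ?_ ?_ ?_ ?_ <;>
  exact (continuous_apply _).add ((continuous_apply _).const_smul w)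

omit [Fintype α] [DecidableEq α] in
theorem continuous_dbl : Continuous (dbl : Matrix α α ℂ → _) := by
  unfold dbl
  exact Continuous.matrix_fromBlocks continuous_id continuous_const continuous_const continuous_id

theorem isClosed_Wt (w : ℂ) : IsClosed {p : Matrix α α ℂ × (Fin 8 → Matrix α α ℂ) | Wt w p.1 p.2} := by
  have hc : Continuous (fun p : Matrix α α ℂ × (Fin 8 → Matrix α α ℂ) =>
      fromBlocks (dbl p.1) (blk w p.2) (blk w p.2)ᴴ (dbl p.1)) :=
    Continuous.matrix_fromBlocks (continuous_dbl.comp continuous_fst)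
      ((continuous_blk w).comp continuous_snd)
      ((continuous_blk w).comp continuous_snd).matrix_conjTranspose
      (continuous_dbl.comp continuous_fst)
  exact isClosed_psd.preimage hc

omit [Fintype α] [DecidableEq α] in
theorem isClosed_herm {g : ℕ} : IsClosed {X : Fin g → Matrix α α ℂ | ∀ j, (X j).IsHermitian} := by
  rw [Set.ofPred_forall]
  refine isClosed_iInter fun j => ?_
  exact isClosed_eq (continuous_apply j).matrix_conjTranspose (continuous_apply j)

omit [DecidableEq α] in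
theorem entry_bound {M : Matrix α α ℂ} (hM : M.PosSemidef) {a b : α} (ha : (M a a).re ≤ 1)
    (hb : (M b b).re ≤ 1) : ‖M a b‖ ≤ 1 := by
  have h := (hM.submatrix ![a, b]).det_nonneg
  rw [det_fin_two] at h
  simp only [submatrix_apply, cons_val_zero, cons_val_one] at h
  have h2 : M b a = star (M a b) := (hM.isHermitian.apply b a).symm
  have ga := hM.diag_nonneg (i := a)
  have gb := hM.diag_nonneg (i := b)
  have ga1 := (Complex.le_def.mp ga).1
  have ga2 := (Complex.le_def.mp ga).2
  have gb1 := (Complex.le_def.mp gb).1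
  have gb2 := (Complex.le_def.mp gb).2
  have h3 := (Complex.le_def.mp h).1
  rw [h2, Complex.star_def, Complex.mul_conj, Complex.sub_re, Complex.mul_re, ← ga2, ← gb2] at h3
  simp only [Complex.zero_re, Complex.zero_im, mul_zero, sub_zero, Complex.ofReal_re] at h3 ga1 gb1
  have h4 : Complex.normSq (M a b) = ‖M a b‖ ^ 2 := Complex.normSq_eq_norm_sq _
  rw [h4] at h3
  have h5 : ‖M a b‖ ^ 2 ≤ 1 := by nlinarith
  nlinarith [norm_nonneg (M a b)]

theorem blk_bound {w : ℂ} {X : Fin 8 → Matrix α α ℂ} (h : Wt w 1 X) (p q : α ⊕ α) :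
    ‖blk w X p q‖ ≤ 1 := by
  unfold Wt at h
  rw [dbl_one] at h
  have := entry_bound h (a := Sum.inl p) (b := Sum.inr q) (by simp) (by simp)
  simpa using this

omit [Fintype α] [DecidableEq α] in
theorem norm_re_im {w : ℂ} (hw : IU w) {A B : Matrix α α ℂ} (hA : A.IsHermitian)
    (hB : B.IsHermitian) (h : ∀ a b, ‖(A + w • B) a b‖ ≤ 1) (a b : α) : ‖A a b‖ ≤ 1 ∧ ‖B a b‖ ≤ 1 := by
  have h1 := h a b
  have h2 := h b a
  have hw1 : ‖w‖ = 1 := by rcases hw with rfl | rfl <;> simp
  have e : (A + w • B) b a = star (A a b - w * B a b) := by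
    have e1 := hA.apply a b
    have e2 := hB.apply a b
    have e1' : A b a = star (A a b) := by rw [hA.apply]
    have e2' : B b a = star (B a b) := by rw [hB.apply]
    rw [Matrix.add_apply, Matrix.smul_apply, e1', e2', star_sub, star_mul', hw.star, smul_eq_mul]
    ring
  rw [e, norm_star] at h2
  rw [Matrix.add_apply, Matrix.smul_apply, smul_eq_mul] at h1
  constructor
  · have : A a b = (2⁻¹ : ℂ) * ((A a b + w * B a b) + (A a b - w * B a b)) := by ring
    rw [this, norm_mul]
    have h3 := norm_add_le (A a b + w * B a b) (A a b - w * B a b)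
    have : ‖(2⁻¹ : ℂ)‖ = 2⁻¹ := by simp
    rw [this]
    linarith
  · have h3 := norm_sub_le (A a b + w * B a b) (A a b - w * B a b)
    have h4 : (A a b + w * B a b) - (A a b - w * B a b) = 2 * w * B a b := by ring
    rw [h4, norm_mul, norm_mul, hw1] at h3
    have : ‖(2 : ℂ)‖ = 2 := by simp
    rw [this] at h3
    linarith

theorem tup_bound {w : ℂ} (hw : IU w) {X : Fin 8 → Matrix α α ℂ} (hX : ∀ j, (X j).IsHermitian)
    (h : Wt w 1 X) (j : Fin 8) (a b : α) : ‖X j a b‖ ≤ 1 := by
  have h00 := norm_re_im hw (hX 0) (hX 1) (fun a b => blk_bound h (Sum.inl a) (Sum.inl b)) a b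
  have h01 := norm_re_im hw (hX 2) (hX 3) (fun a b => blk_bound h (Sum.inl a) (Sum.inr b)) a b
  have h10 := norm_re_im hw (hX 4) (hX 5) (fun a b => blk_bound h (Sum.inr a) (Sum.inl b)) a b
  have h11 := norm_re_im hw (hX 6) (hX 7) (fun a b => blk_bound h (Sum.inr a) (Sum.inr b)) a b
  fin_cases j
  exacts [h00.1, h00.2, h01.1, h01.2, h10.1, h10.2, h11.1, h11.2]

theorem Wt.le_one {w : ℂ} {P : Matrix α α ℂ} {X : Fin 8 → Matrix α α ℂ} (h : Wt w P X)
    (hP : (1 - P).PosSemidef) : Wt w 1 X := by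
  have := h.add (Wt_zero (w := w) hP)
  rw [add_zero, add_sub_cancel] at this
  exact this

theorem isCompact_mat : IsCompact {M : Matrix α α ℂ | ∀ a b, ‖M a b‖ ≤ 1} := by
  have h : IsCompact (Set.pi Set.univ fun _ : α => Set.pi Set.univ fun _ : α =>
      Metric.closedBall (0 : ℂ) 1) :=
    isCompact_univ_pi fun _ => isCompact_univ_pi fun _ => isCompact_closedBall 0 1
  have e : {M : Matrix α α ℂ | ∀ a b, ‖M a b‖ ≤ 1} = (Set.pi Set.univ fun _ : α =>
      Set.pi Set.univ fun _ : α => Metric.closedBall (0 : ℂ) 1) := by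
    ext M
    constructor
    · intro h a _ b _
      simpa using h a b
    · intro h a b
      have := h a trivial b trivial
      simpa using this
  rw [e]
  exact h

theorem isCompact_tup {g : ℕ} :
    IsCompact {X : Fin g → Matrix α α ℂ | ∀ j a b, ‖X j a b‖ ≤ 1} := by
  have h : IsCompact (Set.pi Set.univ fun _ : Fin g => {M : Matrix α α ℂ | ∀ a b, ‖M a b‖ ≤ 1}) :=
    isCompact_univ_pi fun _ => isCompact_mat
  have e : {X : Fin g → Matrix α α ℂ | ∀ j a b, ‖X j a b‖ ≤ 1} =
      (Set.pi Set.univ fun _ : Fin g => {M : Matrix α α ℂ | ∀ a b, ‖M a b‖ ≤ 1}) := by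
    ext M
    simp [Set.mem_pi]
  rw [e]
  exact h

omit [Fintype α] [DecidableEq α] in
theorem psd_conj {M : Matrix α α ℂ} (h : M.PosSemidef) : (M.map (starRingEnd ℂ)).PosSemidef := by
  have h2 := h.transpose
  have : M.map (starRingEnd ℂ) = Mᵀ := by
    conv_rhs => rw [← h.isHermitian.eq]
    rfl
  rw [this]
  exact h2

/-- entrywise complex conjugate -/
def cj {g : ℕ} (X : Fin g → Matrix α α ℂ) : Fin g → Matrix α α ℂ :=
  fun j => (X j).map (starRingEnd ℂ)

omit [Fintype α] [DecidableEq α] in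
theorem Wt_conj {w : ℂ} (hw : IU w) {P : Matrix α α ℂ} {X : Fin 8 → Matrix α α ℂ} (h : Wt w P X) :
    Wt (-w) (P.map (starRingEnd ℂ)) (cj X) := by
  have h2 := psd_conj h
  unfold Wt
  convert h2 using 1
  have e1 : (dbl P).map (starRingEnd ℂ) = dbl (P.map (starRingEnd ℂ)) := by
    simp [dbl, fromBlocks_map]
  have e2 : (blk w X).map (starRingEnd ℂ) = blk (-w) (cj X) := by
    have hs : (starRingEnd ℂ) w = -w := hw.star
    ext (a | a) (b | b) <;> simp [blk, cj, hs]
  have e3 : ((blk w X)ᴴ).map (starRingEnd ℂ) = ((blk w X).map (starRingEnd ℂ))ᴴ := by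
    ext a b
    simp
  rw [fromBlocks_map, e1, e3, e2]

omit [Fintype α] [DecidableEq α] in
theorem cj_herm {g : ℕ} {X : Fin g → Matrix α α ℂ} (h : ∀ j, (X j).IsHermitian) :
    ∀ j, (cj X j).IsHermitian := by
  intro j
  ext a b
  have := (h j).apply a b
  simp only [cj, conjTranspose_apply, Matrix.map_apply]
  rw [← this]
  simp

end

theorem KK_closedBounded {w : ℂ} (hw : IU w) : ClosedBounded (KK w) := by
  intro n hn
  refine ⟨?_, 1, fun X hX j a b => tup_bound hw hX.1 hX.2 j a b⟩
  have h1 : IsClosed {X : Tup 8 n | Wt w 1 X} :=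
    (isClosed_Wt w).preimage (Continuous.prodMk continuous_const continuous_id)
  exact isClosed_herm.inter h1

theorem LL_closedBounded : ClosedBounded LL := by
  intro n hn
  have hI : IU Complex.I := Or.inl rfl
  have hI' : IU (-Complex.I) := Or.inr rfl
  -- the compact parameter set
  set T : Set (Matrix (Fin n) (Fin n) ℂ × (Tup 8 n × Tup 8 n)) :=
    {p | (∀ j, (p.2.1 j).IsHermitian) ∧ (∀ j, (p.2.2 j).IsHermitian) ∧ Wt Complex.I p.1 p.2.1 ∧
      Wt (-Complex.I) (1 - p.1) p.2.2} with hT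
  have hTb : ∀ p ∈ T, (∀ a b, ‖p.1 a b‖ ≤ 1) ∧ (∀ j a b, ‖p.2.1 j a b‖ ≤ 1) ∧
      (∀ j a b, ‖p.2.2 j a b‖ ≤ 1) := by
    rintro ⟨P, X', X''⟩ ⟨h', h'', hW', hW''⟩
    dsimp only at h' h'' hW' hW'' ⊢
    have p1 := hW'.psd
    have p2 := hW''.psd
    refine ⟨fun a b => ?_, fun j a b => ?_, fun j a b => ?_⟩
    · have key : ∀ a, (P a a).re ≤ 1 := by
        intro a
        have := (Complex.le_def.mp (p2.diag_nonneg (i := a))).1
        simp at this
        exact this
      exact entry_bound p1 (key a) (key b)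
    · exact tup_bound hI h' (hW'.le_one p2) j a b
    · refine tup_bound hI' h'' (hW''.le_one ?_) j a b
      rw [sub_sub_cancel]
      exact p1
  have hTc : IsClosed T := by
    have c1 : IsClosed {p : Matrix (Fin n) (Fin n) ℂ × (Tup 8 n × Tup 8 n) |
        ∀ j, (p.2.1 j).IsHermitian} :=
      isClosed_herm.preimage (continuous_fst.comp continuous_snd)
    have c2 : IsClosed {p : Matrix (Fin n) (Fin n) ℂ × (Tup 8 n × Tup 8 n) |
        ∀ j, (p.2.2 j).IsHermitian} :=
      isClosed_herm.preimage (continuous_snd.comp continuous_snd)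
    have c3 : IsClosed {p : Matrix (Fin n) (Fin n) ℂ × (Tup 8 n × Tup 8 n) |
        Wt Complex.I p.1 p.2.1} :=
      (isClosed_Wt Complex.I).preimage
        (continuous_fst.prodMk (continuous_fst.comp continuous_snd))
    have c4 : IsClosed {p : Matrix (Fin n) (Fin n) ℂ × (Tup 8 n × Tup 8 n) |
        Wt (-Complex.I) (1 - p.1) p.2.2} :=
      (isClosed_Wt (-Complex.I)).preimage
        ((continuous_const.sub continuous_fst).prodMk (continuous_snd.comp continuous_snd))
    exact c1.inter (c2.inter (c3.inter c4))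
  have hcomp : IsCompact T := by
    refine IsCompact.of_isClosed_subset (isCompact_mat.prod (isCompact_tup.prod isCompact_tup))
      hTc ?_
    intro p hp
    exact ⟨(hTb p hp).1, (hTb p hp).2.1, (hTb p hp).2.2⟩
  have himg : LL n = (fun p : Matrix (Fin n) (Fin n) ℂ × (Tup 8 n × Tup 8 n) => p.2.1 + p.2.2) '' T := by
    ext X
    constructor
    · rintro ⟨P, X', X'', h', h'', hW', hW'', rfl⟩
      exact ⟨(P, X', X''), ⟨h', h'', hW', hW''⟩, rfl⟩
    · rintro ⟨⟨P, X', X''⟩, ⟨h', h'', hW', hW''⟩, rfl⟩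
      exact ⟨P, X', X'', h', h'', hW', hW'', rfl⟩
  refine ⟨?_, 2, ?_⟩
  · rw [himg]
    refine (hcomp.image ?_).isClosed
    exact (continuous_fst.comp continuous_snd).add (continuous_snd.comp continuous_snd)
  · intro X hX j a b
    rw [himg] at hX
    obtain ⟨p, hp, rfl⟩ := hX
    have h1 := (hTb p hp).2.1 j a b
    have h2 := (hTb p hp).2.2 j a b
    calc ‖(p.2.1 + p.2.2) j a b‖ ≤ ‖p.2.1 j a b‖ + ‖p.2.2 j a b‖ := norm_add_le _ _
      _ ≤ 2 := by linarith

theorem LL_conj {n : ℕ} {X : Tup 8 n} (h : X ∈ LL n) : cj X ∈ LL n := by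
  obtain ⟨P, X', X'', h', h'', hW', hW'', rfl⟩ := h
  have hI : IU Complex.I := Or.inl rfl
  have hI' : IU (-Complex.I) := Or.inr rfl
  refine ⟨(1 - P).map (starRingEnd ℂ), cj X'', cj X', cj_herm h'', cj_herm h', ?_, ?_, ?_⟩
  · have := Wt_conj hI' hW''
    rwa [neg_neg] at this
  · have := Wt_conj hI hW'
    convert this using 1
    ext a b
    by_cases hab : a = b <;> simp [hab, one_apply]
  · funext j
    ext a b
    simp [cj]
    ring

end Pool.Agent.R279.PJ
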